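import Pool.Agent.H83.Verif
import Pool.Agent.H83.Str

/-!
# Certificates that are trees

PROOF. `parse : List Bool → T`, `parse y = (y.foldr stepP []).headD .leaf` with the stack machine
`stepP false st = .leaf :: st`, `stepP true (a :: b :: st) = .node a b :: st`, `stepP true st = st` otherwise. By induction on
`t`: `(t.enc ++ y).foldr stepP [] = t :: y.foldr stepP []`, so `parse (t.enc ++ y) = t`.
`parse` is `Poly`: `foldr` is `foldl` on the reversed list (`Poly.reverse`), `Poly.foldl_add` (each step increases the size of the
stack by at most `2`; `stepP` with `Poly.listCases`/`Poly.cond`, `Poly.headD`, `Poly.tail`; `T.node` of two computed trees is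
`Poly.pair` up to the code: `enc (a, b) = node (enc a) (enc b)`).
Verifier: `V' (x, y) = V (x, parse y) && decide (sz (parse y) ≤ q.eval x.length)`, certificate length `q.eval x.length`: from a tree
`t` of size `≤ q` take `y = t.enc ++ replicate (q - size) false` (`length_enc`). `sz t = (str t).length`, so
`Poly (fun t => sz t)` by `Poly.length (Poly.word ...)`; `Poly.polyEval`, `Poly.natLe`. Use `inNP_of_poly`.
-/

set_option autoImplicit false

namespace Pool.Agent.H43.TP

open Pool.Agent.H83

/-- one step of the parser -/
private def nptStep (st : List T) (x : Bool) : List T :=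
  bif x then (match st with
    | [] => []
    | a :: st' => (match st' with
      | [] => [a]
      | b :: st'' => T.node a b :: st''))
  else T.leaf :: st

/-- the parser -/
private def nptParse (y : List Bool) : T := (y.foldr (fun x st => nptStep st x) []).headD T.leaf

private theorem npt_foldr (t : T) : ∀ y : List Bool,
    (t.enc ++ y).foldr (fun x st => nptStep st x) [] = t :: y.foldr (fun x st => nptStep st x) [] := by
  induction t with
  | leaf => intro y; rfl
  | node l r hl hr =>
    intro y
    simp only [T.enc, List.cons_append, List.append_assoc, List.foldr_cons]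
    rw [hl, hr]
    rfl

private theorem nptParse_enc (t : T) (y : List Bool) : nptParse (t.enc ++ y) = t := by
  unfold nptParse
  rw [npt_foldr]
  rfl

private theorem npt_node {α : Type} [Enc α] {f g : α → T} (hf : Poly f) (hg : Poly g) :
    Poly (fun a => T.node (f a) (g a)) := by
  have h : Poly (fun p : T × T => T.node p.1 p.2) := Poly.of_enc_eq fun _ => rfl
  exact h.comp (hf.pair hg)

private theorem nptStep_poly : Poly (fun p : List Bool × List T × Bool => nptStep p.2.1 p.2.2) := by
  unfold nptStep
  refine Poly.cond (Poly.snd' (Poly.snd' Poly.id)) ?_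
    (Poly.cons (H83.Poly.const _) (Poly.fst' (Poly.snd' Poly.id)))
  have h1 : Poly (fun p : (List Bool × List T × Bool) × T × List T => (match p.2.2 with
      | [] => [p.2.1]
      | b :: st'' => T.node p.2.1 b :: st'')) := by
    refine (Poly.listCases (l := fun p : (List Bool × List T × Bool) × T × List T => p.2.2)
      (f := fun p => [p.2.1])
      (g := fun (p : (List Bool × List T × Bool) × T × List T) (b : T) (st'' : List T) =>
        T.node p.2.1 b :: st'') (Poly.snd' (Poly.snd' Poly.id))
      (Poly.cons (Poly.fst' (Poly.snd' Poly.id)) (H83.Poly.const _)) ?_).congr ?_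
    · exact Poly.cons (npt_node (Poly.fst' (Poly.snd' (Poly.fst' Poly.id)))
        (Poly.fst' (Poly.snd' Poly.id))) (Poly.snd' (Poly.snd' Poly.id))
    · rintro ⟨u, a, _ | ⟨b, st⟩⟩ <;> rfl
  refine (Poly.listCases (l := fun p : List Bool × List T × Bool => p.2.1) (f := fun _ => ([] : List T))
    (g := fun (_ : List Bool × List T × Bool) (a : T) (st' : List T) => (match st' with
      | [] => [a]
      | b :: st'' => T.node a b :: st'')) (Poly.fst' (Poly.snd' Poly.id)) (H83.Poly.const _)
      (h1.congr ?_)).congr ?_
  · rintro ⟨u, a, _ | ⟨b, st⟩⟩ <;> rfl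
  · rintro ⟨u, _ | ⟨a, _ | ⟨b, st⟩⟩, x⟩ <;> rfl

private theorem nptStep_sz (st : List T) (x : Bool) : sz (nptStep st x) ≤ sz st + 2 := by
  have e : ∀ a b : T, sz (T.node a b) = sz a + sz b + 1 := fun a b => rfl
  unfold nptStep
  cases x with
  | false =>
    simp only [cond_false, H83.Poly.sz_cons]
    have : sz T.leaf = 1 := rfl
    omega
  | true =>
    simp only [cond_true]
    rcases st with _ | ⟨a, _ | ⟨b, st⟩⟩
    · simp
    · simp
    · simp only [H83.Poly.sz_cons, e]
      omega

private theorem nptParse_poly : Poly nptParse := by
  have h : Poly (fun y : List Bool => (y.reverse).foldl (fun st x => nptStep st x) []) := by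
    refine Poly.foldl_add (f := fun (_ : List Bool) (st : List T) (x : Bool) => nptStep st x)
      (Poly.reverse Poly.id) (H83.Poly.const _) nptStep_poly (fun _ => 2) (PB.const 2) ?_
    intro a s x _
    exact nptStep_sz s x
  refine (Poly.headD T.leaf h).congr fun y => ?_
  unfold nptParse
  rw [List.foldl_reverse]

theorem inNP_of_tree {A : Set (List Bool)} (q : Polynomial ℕ) (V : List Bool × T → Bool)
    (hV : Poly V)
    (h : ∀ x, x ∈ A ↔ ∃ t : T, t.size ≤ q.eval x.length ∧ V (x, t) = true) : InNP A := by
  refine inNP_of_poly q (fun p : List Bool × List Bool =>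
    V (p.1, nptParse p.2) && decide ((str (nptParse p.2)).length ≤ q.eval p.1.length)) ?_ ?_
  · have hp : Poly (fun p : List Bool × List Bool => nptParse p.2) := nptParse_poly.comp Poly.snd
    exact Poly.and (hV.comp (Poly.fst.pair hp))
      (Poly.natLe (Poly.length (Poly.word hp)) (Poly.polyEval q (Poly.length Poly.fst)))
  · intro x
    rw [h x]
    have e : ∀ t : T, (str t).length = t.size := fun t => length_str t
    constructor
    · rintro ⟨t, ht, hVt⟩
      refine ⟨t.enc ++ List.replicate (q.eval x.length - t.size) false, ?_, ?_⟩
      · rw [List.length_append, T.length_enc, List.length_replicate]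
        omega
      · simp only [nptParse_enc, e, hVt, ht, decide_true, Bool.and_true]
    · rintro ⟨y, _, hy⟩
      simp only [Bool.and_eq_true, decide_eq_true_eq] at hy
      exact ⟨nptParse y, (e _) ▸ hy.2, hy.1⟩

end Pool.Agent.H43.TP
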