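import Pool.Agent.H43.TPM.BDef

/-!
# Binary numbers

PROOF. Correctness: generalise the fold over the list of pairs of digits: for a list `l` of pairs,
`(l.foldl addStep (c, r))` has value `val (reversed digits)` ... with carry: `val (r'.reverse ++ [c']) =
val r.reverse + 2 ^ r.length * ((if c then 1 else 0) + val (l.map fst) + val (l.map snd))`; `val ((zipB a b).map fst) = val a` (padding with
`false` does not change the value). Comparison: `l.foldl leStep s = true ↔ val (l.map fst) < val (l.map snd) ∨
(val (l.map fst) = val (l.map snd) ∧ s)` (induction on `l` from the front: the later digits are more significant).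
`Poly`: `zipB` by `Poly.map`, `Poly.range`, `Poly.ite`, `Poly.headD`, `Tableau.drop_poly`; folds by `Poly.foldl_add` (constant growth; for
`sumB` the growth of `sz (addB s x)`: `≤ sz s + sz x + const`, use `length_addB` and `sz` of a Boolean list between
`2 * length + 1` and `4 * length + 1`; it may be convenient to bound the intermediate sums by `Poly.foldl`: the length of each
intermediate sum is `≤ max of the lengths + number of summands`).
-/

set_option autoImplicit false

namespace Pool.Agent.H43.TP

open Pool.Agent.H83

private theorem BIN_val_append (l m : List Bool) : val (l ++ m) = val l + 2 ^ l.length * val m := by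
  induction l with
  | nil => simp [val]
  | cons b l ih =>
    simp only [List.cons_append, val, ih, List.length_cons, pow_succ]
    ring

private theorem BIN_pad (f : List Bool) : ∀ n, f.length ≤ n →
    val ((List.range n).map (fun i => (f.drop i).headD false)) = val f := by
  induction f with
  | nil =>
    intro n _
    induction n with
    | zero => simp
    | succ n ih =>
      rw [List.range_succ_eq_map, List.map_cons, List.map_map]
      have e : ((fun i => (([] : List Bool).drop i).headD false) ∘ Nat.succ) =
          (fun i => (([] : List Bool).drop i).headD false) := by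
        funext i
        simp
      rw [e]
      simp only [val]
      simp only [val] at ih
      rw [ih (Nat.zero_le _)]
      simp
  | cons x f ih =>
    intro n hn
    cases n with
    | zero => simp at hn
    | succ n =>
      rw [List.range_succ_eq_map, List.map_cons, List.map_map]
      have e : ((fun i => ((x :: f).drop i).headD false) ∘ Nat.succ) =
          (fun i => (f.drop i).headD false) := by
        funext i
        simp
      rw [e]
      simp only [val]
      rw [ih n (by simpa using hn)]
      simp

private theorem BIN_zip_fst (a b : List Bool) : val ((zipB a b).map Prod.fst) = val a := by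
  unfold zipB
  rw [List.map_map]
  exact BIN_pad a _ (by split_ifs with h <;> omega)

private theorem BIN_zip_snd (a b : List Bool) : val ((zipB a b).map Prod.snd) = val b := by
  unfold zipB
  rw [List.map_map]
  exact BIN_pad b _ (by split_ifs with h <;> omega)

private theorem BIN_zip_length (a b : List Bool) :
    (zipB a b).length = max a.length b.length := by
  unfold zipB
  rw [List.length_map, List.length_range]
  split_ifs with h <;> omega

private theorem BIN_fold (l : List (Bool × Bool)) : ∀ (c : Bool) (r : List Bool),
    (l.foldl addStep (c, r)).2.length = r.length + l.length ∧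
    val ((l.foldl addStep (c, r)).2.reverse ++ [(l.foldl addStep (c, r)).1]) =
      val r.reverse + 2 ^ r.length *
        ((if c then 1 else 0) + val (l.map Prod.fst) + val (l.map Prod.snd)) := by
  induction l with
  | nil =>
    intro c r
    refine ⟨by simp, ?_⟩
    rw [List.foldl_nil, BIN_val_append]
    simp [val]
  | cons p l ih =>
    intro c r
    rw [List.foldl_cons]
    obtain ⟨h1, h2⟩ := ih (addStep (c, r) p).1 (addStep (c, r) p).2
    rw [Prod.mk.eta] at h1 h2
    refine ⟨?_, ?_⟩
    · rw [h1]
      simp only [addStep, List.length_cons]
      omega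
    · rw [h2]
      have h3 : (addStep (c, r) p).2.reverse = r.reverse ++
          [(bif p.1 then (bif p.2 then c else !c) else (bif p.2 then !c else c))] := by
        simp [addStep]
      have h4 : (addStep (c, r) p).2.length = r.length + 1 := by simp [addStep]
      rw [h3, h4, BIN_val_append, List.length_reverse, pow_succ]
      simp only [List.map_cons, val]
      obtain ⟨p1, p2⟩ := p
      cases c <;> cases p1 <;> cases p2 <;> simp [addStep] <;> ring

theorem val_addB (a b : List Bool) : val (addB a b) = val a + val b := by
  unfold addB
  rw [(BIN_fold (zipB a b) false []).2, BIN_zip_fst, BIN_zip_snd]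
  simp [val]

private theorem BIN_le (l : List (Bool × Bool)) : ∀ (s : Bool),
    l.foldl leStep s = true ↔ val (l.map Prod.fst) < val (l.map Prod.snd) ∨
      (val (l.map Prod.fst) = val (l.map Prod.snd) ∧ s = true) := by
  induction l with
  | nil => intro s; simp
  | cons p l ih =>
    intro s
    rw [List.foldl_cons, ih]
    simp only [List.map_cons, val]
    obtain ⟨p1, p2⟩ := p
    cases s <;> cases p1 <;> cases p2 <;> simp [leStep] <;> omega

theorem leB_iff (a b : List Bool) : leB a b = true ↔ val a ≤ val b := by
  unfold leB
  rw [BIN_le, BIN_zip_fst, BIN_zip_snd]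
  simp only [and_true]
  omega

theorem eqB2_iff (a b : List Bool) : eqB2 a b = true ↔ val a = val b := by
  unfold eqB2
  rw [Bool.and_eq_true, leB_iff, leB_iff]
  omega

theorem length_addB (a b : List Bool) : (addB a b).length ≤ max a.length b.length + 1 := by
  unfold addB
  rw [List.length_append, List.length_reverse, (BIN_fold (zipB a b) false []).1, BIN_zip_length]
  simp

theorem val_sumB (l : List (List Bool)) : val (sumB l) = (l.map val).sum := by
  have key : ∀ (l : List (List Bool)) (s : List Bool), val (l.foldl addB s) =
      val s + (l.map val).sum := by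
    intro l
    induction l with
    | nil => intro s; simp
    | cons x l ih =>
      intro s
      rw [List.foldl_cons, ih, val_addB, List.map_cons, List.sum_cons, Nat.add_assoc]
  unfold sumB
  rw [key]
  simp [val]

theorem oddB_iff (n : ℕ) : oddB n = true ↔ Odd n := by
  unfold oddB
  induction n with
  | zero => simp
  | succ n ih =>
    rw [List.range_succ, List.foldl_append, List.foldl_cons, List.foldl_nil, Nat.odd_add_one,
      ← ih]
    simp

theorem exists_bits (k n : ℕ) (h : n < 2 ^ k) : ∃ l : List Bool, l.length = k ∧ val l = n := by
  induction k generalizing n with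
  | zero =>
    refine ⟨[], rfl, ?_⟩
    simp at h
    simp [val, h]
  | succ k ih =>
    obtain ⟨l, h1, h2⟩ := ih (n / 2) (by rw [pow_succ] at h; omega)
    refine ⟨decide (n % 2 = 1) :: l, by simp [h1], ?_⟩
    simp only [val, h2, decide_eq_true_eq]
    split_ifs with h3 <;> omega

section
variable {α : Type} [Enc α]

private theorem BIN_zip_poly {a b : α → List Bool} (ha : Poly a) (hb : Poly b) :
    Poly (fun i => zipB (a i) (b i)) := by
  unfold zipB
  refine H83.Poly.map (f := fun i j => (((a i).drop j).headD false, ((b i).drop j).headD false))
    (Poly.range (Poly.ite (c := fun i => (a i).length ≤ (b i).length)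
      (Poly.natLe (Poly.length ha) (Poly.length hb)) (Poly.length hb) (Poly.length ha))) ?_
  exact (Poly.headD false (Tableau.drop_poly (ha.comp (Poly.fst' Poly.id)) (Poly.snd' Poly.id))).pair
    (Poly.headD false (Tableau.drop_poly (hb.comp (Poly.fst' Poly.id)) (Poly.snd' Poly.id)))

private theorem BIN_step_poly {β : Type} [Enc β] : Poly (fun p : β × (Bool × List Bool) ×
    (Bool × Bool) => addStep p.2.1 p.2.2) := by
  unfold addStep
  have hs : Poly (fun p : β × (Bool × List Bool) × (Bool × Bool) => p.2.1.1) :=
    Poly.fst' (Poly.fst' (Poly.snd' Poly.id))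
  have hr : Poly (fun p : β × (Bool × List Bool) × (Bool × Bool) => p.2.1.2) :=
    Poly.snd' (Poly.fst' (Poly.snd' Poly.id))
  have h1 : Poly (fun p : β × (Bool × List Bool) × (Bool × Bool) => p.2.2.1) :=
    Poly.fst' (Poly.snd' (Poly.snd' Poly.id))
  have h2 : Poly (fun p : β × (Bool × List Bool) × (Bool × Bool) => p.2.2.2) :=
    Poly.snd' (Poly.snd' (Poly.snd' Poly.id))
  exact (Poly.or (Poly.and h1 h2) (Poly.and hs (Poly.or h1 h2))).pair
    (Poly.cons (Poly.cond h1 (Poly.cond h2 hs (Poly.not hs)) (Poly.cond h2 (Poly.not hs) hs)) hr)

theorem addB_poly {a b : α → List Bool} (ha : Poly a) (hb : Poly b) :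
    Poly (fun i => addB (a i) (b i)) := by
  have h : Poly (fun i => (zipB (a i) (b i)).foldl addStep (false, [])) := by
    refine Poly.foldl_add (l := fun i => zipB (a i) (b i)) (s := fun _ => (false, ([] : List Bool)))
      (f := fun _ s p => addStep s p) (BIN_zip_poly ha hb) (H83.Poly.const _) BIN_step_poly
      (fun _ => 6) (PB.const 6) ?_
    intro i s x _
    obtain ⟨c, r⟩ := s
    have h1 := Poly.sz_bool (addStep (c, r) x).1
    have h2 := Poly.sz_bool (bif x.1 then (bif x.2 then c else !c) else (bif x.2 then !c else c))
    have h3 := sz_pos c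
    have e : sz (addStep (c, r) x) = sz (addStep (c, r) x).1 +
      (sz (bif x.1 then (bif x.2 then c else !c) else (bif x.2 then !c else c)) + sz r + 1) + 1 :=
      rfl
    rw [e, Poly.sz_pair]
    omega
  unfold addB
  exact Poly.append (Poly.reverse (Poly.snd' h)) (Poly.cons (Poly.fst' h) (H83.Poly.const []))

theorem leB_poly {a b : α → List Bool} (ha : Poly a) (hb : Poly b) :
    Poly (fun i => leB (a i) (b i)) := by
  unfold leB
  refine Poly.foldl_add (l := fun i => zipB (a i) (b i)) (s := fun _ => true)
    (f := fun _ s p => leStep s p) (BIN_zip_poly ha hb) (H83.Poly.const _) ?_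
    (fun _ => 3) (PB.const 3) ?_
  · unfold leStep
    have hs : Poly (fun p : α × Bool × (Bool × Bool) => p.2.1) :=
      Poly.fst' (Poly.snd' Poly.id)
    have h1 : Poly (fun p : α × Bool × (Bool × Bool) => p.2.2.1) :=
      Poly.fst' (Poly.snd' (Poly.snd' Poly.id))
    have h2 : Poly (fun p : α × Bool × (Bool × Bool) => p.2.2.2) :=
      Poly.snd' (Poly.snd' (Poly.snd' Poly.id))
    exact Poly.cond h1 (Poly.cond h2 hs (H83.Poly.const false)) (Poly.cond h2 (H83.Poly.const true) hs)
  · intro i s x _
    have h1 := Poly.sz_bool (leStep s x)
    omega

theorem eqB2_poly {a b : α → List Bool} (ha : Poly a) (hb : Poly b) :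
    Poly (fun i => eqB2 (a i) (b i)) :=
  Poly.and (leB_poly ha hb) (leB_poly hb ha)

private theorem BIN_sz (l : List Bool) : sz l ≤ 4 * l.length + 1 := by
  induction l with
  | nil => simp
  | cons b l ih =>
    have := Poly.sz_bool b
    rw [Poly.sz_cons, List.length_cons]
    omega

theorem sumB_poly {l : α → List (List Bool)} (hl : Poly l) : Poly (fun i => sumB (l i)) := by
  obtain ⟨b, hb, hbm, hlb⟩ := hl.size_le
  unfold sumB
  refine Poly.foldl (l := l) (s := fun _ => ([] : List Bool)) (f := fun _ s x => addB s x) hl
    (H83.Poly.const _) (addB_poly (Poly.fst' (Poly.snd' Poly.id)) (Poly.snd' (Poly.snd' Poly.id)))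
    (fun n => 4 * (b n + b n) + 1) (((PB.const 4).mul (hb.add hb)).add (PB.const 1)) ?_
  intro a i hi
  have key : ∀ (m : List (List Bool)) (s : List Bool) (L : ℕ), (∀ x ∈ m, x.length ≤ L) →
      s.length ≤ L → (m.foldl addB s).length ≤ L + m.length := by
    intro m
    induction m with
    | nil => intro s L _ h; simpa using h
    | cons x m ih =>
      intro s L hx hs
      rw [List.foldl_cons, List.length_cons]
      have h1 := length_addB s x
      have h2 := hx x List.mem_cons_self
      have h3 := ih (addB s x) (L + 1)
        (fun y hy => (hx y (List.mem_cons_of_mem _ hy)).trans (Nat.le_succ L)) (by omega)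
      omega
  have h1 := key ((l a).take i) [] (sz (l a)) (fun x hx =>
    (Poly.length_le_sz x).trans (Poly.sz_le_of_mem (List.mem_of_mem_take hx))) (by simp)
  have h2 : ((l a).take i).length ≤ sz (l a) :=
    (List.length_take_le _ _).trans (hi.trans (Poly.length_le_sz _))
  have h3 := BIN_sz (((l a).take i).foldl addB [])
  have h4 := hlb a
  have h5 : sz (((l a).take i).foldl (fun s x => addB s x) []) =
      sz (((l a).take i).foldl addB []) := rfl
  rw [h5]
  omega

theorem oddB_poly {n : α → ℕ} (hn : Poly n) : Poly (fun i => oddB (n i)) := by
  unfold oddB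
  refine Poly.foldl_add (l := fun i => List.range (n i)) (s := fun _ => false)
    (f := fun _ (b : Bool) (_ : ℕ) => !b) (Poly.range hn) (H83.Poly.const _)
    (Poly.not (Poly.fst' (Poly.snd' Poly.id))) (fun _ => 3) (PB.const 3) ?_
  intro i s x _
  have h1 := Poly.sz_bool (!s)
  omega

end

end Pool.Agent.H43.TP
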