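import Pool.Agent.H43.TPM.VDef
import Pool.Agent.H43.TPM.BIN

/-!
# The verifier is polynomial time computable

`toL` is the identity on codes: `Enc.enc (toL t) = t` (induction), so `Poly.of_enc_eq`. The rest follows the structure of
the definitions: `Poly.length`, `Poly.map`, `Poly.filter`, `Poly.all`, `Poly.flatMap`, `Poly.and`, `Poly.or`, `Poly.not`, `Poly.ite`,
`Poly.natLt`, `Poly.natEq`, `Poly.headD`, `Tableau.drop_poly`, and `addB_poly`, `leB_poly`, `eqB2_poly`, `sumB_poly`, `oddB_poly`. Make one lemma
per definition, with arguments that are `Poly` functions on an arbitrary `α` with `Enc α` (as in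
`Pool/Agent/H83/RBMember.lean`).
-/

set_option autoImplicit false

namespace Pool.Agent.H43.TP

open Pool.Agent.H83

theorem enc_toL (t : T) : Enc.enc (toL t) = Enc.enc t := by
  show Poly.encList (toL t) = t
  induction t with
  | leaf => rfl
  | node l r _ ihr =>
    show T.node l (Poly.encList (toL r)) = T.node l r
    rw [ihr]

section
open Pool.Agent.H83.Poly
variable {α : Type} [Enc α]

theorem toL_poly {t : α → T} (ht : Poly t) : Poly (fun a => toL (t a)) :=
  (Poly.of_enc_eq enc_toL).comp ht

theorem toN_poly {t : α → T} (ht : Poly t) : Poly (fun a => toN (t a)) := by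
  unfold toN
  exact length (toL_poly ht)

theorem toBits_poly {t : α → T} (ht : Poly t) : Poly (fun a => toBits (t a)) := by
  unfold toBits
  exact map (f := fun _ u => !(toL u).isEmpty) (toL_poly ht) (not (isEmpty (toL_poly snd)))

theorem nthT_poly {k : α → ℕ} {t : α → T} (hk : Poly k) (ht : Poly t) :
    Poly (fun a => nthT (k a) (t a)) := by
  unfold nthT
  exact headD _ (Tableau.drop_poly (toL_poly ht) hk)

theorem ci_poly {t : α → T} (ht : Poly t) : Poly (fun a => ci (t a)) := by
  unfold ci
  exact toN_poly (nthT_poly (const 0) ht)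

theorem cD_poly {t : α → T} (ht : Poly t) : Poly (fun a => cD (t a)) := by
  unfold cD
  exact toBits_poly (nthT_poly (const 1) ht)

theorem cD'_poly {t : α → T} (ht : Poly t) : Poly (fun a => cD' (t a)) := by
  unfold cD'
  exact toBits_poly (nthT_poly (const 2) ht)

theorem cX_poly {t : α → T} {v : α → ℕ} (ht : Poly t) (hv : Poly v) :
    Poly (fun a => cX (t a) (v a)) := by
  unfold cX
  exact toBits_poly (nthT_poly hv (nthT_poly (const 3) ht))

theorem cRows_poly {t : α → T} (ht : Poly t) : Poly (fun a => cRows (t a)) := by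
  unfold cRows
  exact toL_poly (nthT_poly (const 4) ht)

theorem rKind_poly {r : α → T} (hr : Poly r) : Poly (fun a => rKind (r a)) := by
  unfold rKind
  exact toN_poly (nthT_poly (const 0) hr)

theorem rVs_poly {r : α → T} (hr : Poly r) : Poly (fun a => rVs (r a)) := by
  unfold rVs
  exact map (f := fun _ u => toN u) (toL_poly (nthT_poly (const 1) hr)) (toN_poly snd)

theorem rP_poly {r : α → T} (hr : Poly r) : Poly (fun a => rP (r a)) := by
  unfold rP
  exact toBits_poly (nthT_poly (const 2) hr)

theorem rM_poly {r : α → T} (hr : Poly r) : Poly (fun a => rM (r a)) := by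
  unfold rM
  exact toBits_poly (nthT_poly (const 3) hr)

theorem cd_poly {t : α → T} {r v e : α → ℕ} (ht : Poly t) (hr : Poly r) (hv : Poly v)
    (he : Poly e) : Poly (fun a => cd (t a) (r a) (v a) (e a)) := by
  unfold cd
  exact toBits_poly (nthT_poly (add (mul hv (const 2)) he) (nthT_poly hr (nthT_poly (const 5) ht)))

theorem wAdj_poly {w : α → List Bool} {n i j : α → ℕ} (hw : Poly w) (hn : Poly n) (hi : Poly i)
    (hj : Poly j) : Poly (fun a => wAdj (w a) (n a) (i a) (j a)) := by
  unfold wAdj
  exact headD _ (Tableau.drop_poly hw (add (mul hi hn) hj))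

theorem getN_poly {l : α → List ℕ} {i : α → ℕ} (hl : Poly l) (hi : Poly i) :
    Poly (fun a => getN (l a) (i a)) := by
  unfold getN
  exact headD _ (Tableau.drop_poly hl hi)

/-- the sum of the numerators of a row -/
theorem sX_poly {t r : α → T} (ht : Poly t) (hr : Poly r) :
    Poly (fun a => sumB ((rVs (r a)).map (fun v => cX (t a) v))) :=
  sumB_poly (map (f := fun a v => cX (t a) v) (rVs_poly hr) (cX_poly (ht.comp fst) snd))

/-- the row is a closed walk -/
theorem cyc_poly {w : α → List Bool} {n : α → ℕ} {r : α → T} (hw : Poly w) (hn : Poly n)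
    (hr : Poly r) : Poly (fun a => (List.range (rVs (r a)).length).all (fun i =>
      wAdj (w a) (n a) (getN (rVs (r a)) i)
      (getN (rVs (r a)) (if i + 1 < (rVs (r a)).length then i + 1 else 0)))) := by
  refine all (f := fun a i => wAdj (w a) (n a) (getN (rVs (r a)) i)
      (getN (rVs (r a)) (if i + 1 < (rVs (r a)).length then i + 1 else 0)))
    (range (length (rVs_poly hr))) ?_
  exact wAdj_poly (hw.comp fst) (hn.comp fst) (getN_poly (rVs_poly (hr.comp fst)) snd)
    (getN_poly (rVs_poly (hr.comp fst))
      (ite (natLt (succ snd) (length (rVs_poly (hr.comp fst)))) (succ snd) (const 0)))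

theorem rowB_poly {w : α → List Bool} {n : α → ℕ} {t r : α → T} (hw : Poly w) (hn : Poly n)
    (ht : Poly t) (hr : Poly r) : Poly (fun a => rowB (w a) (n a) (t a) (r a)) := by
  unfold rowB
  have hX := sX_poly ht hr
  have hD := cD_poly ht
  have hk := rKind_poly hr
  have hv := rVs_poly hr
  have h0 : Poly (fun a => (rVs (r a)).all (fun v => decide (v < n a))) :=
    all (f := fun a v => decide (v < n a)) hv (natLt snd (hn.comp fst))
  have h1 : Poly (fun a => decide (rKind (r a) = 0) && (decide ((rVs (r a)).length = 1) &&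
      leB (sumB ((rVs (r a)).map (fun v => cX (t a) v))) [])) :=
    and (natEq hk (const 0)) (and (natEq (length hv) (const 1)) (leB_poly hX (const [])))
  have h2 : Poly (fun a => decide (rKind (r a) = 1) && (decide ((rVs (r a)).length = 1) &&
      eqB2 (sumB ((rVs (r a)).map (fun v => cX (t a) v))) (cD (t a)))) :=
    and (natEq hk (const 1)) (and (natEq (length hv) (const 1)) (eqB2_poly hX hD))
  have h3 : Poly (fun a => decide (rKind (r a) = 2) && (decide ((rVs (r a)).length = 2) &&
      (wAdj (w a) (n a) (getN (rVs (r a)) 0) (getN (rVs (r a)) 1) &&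
      eqB2 (sumB ((rVs (r a)).map (fun v => cX (t a) v))) (cD (t a))))) :=
    and (natEq hk (const 2)) (and (natEq (length hv) (const 2))
      (and (wAdj_poly hw hn (getN_poly hv (const 0)) (getN_poly hv (const 1))) (eqB2_poly hX hD)))
  have h4 : Poly (fun a => decide (rKind (r a) = 3) && (oddB (rVs (r a)).length &&
    ((List.range (rVs (r a)).length).all (fun i => wAdj (w a) (n a) (getN (rVs (r a)) i)
      (getN (rVs (r a)) (if i + 1 < (rVs (r a)).length then i + 1 else 0))) &&
    eqB2 (sumB [sumB ((rVs (r a)).map (fun v => cX (t a) v)),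
      sumB ((rVs (r a)).map (fun v => cX (t a) v)), cD (t a)])
      (sumB ((rVs (r a)).map (fun _ => cD (t a))))))) :=
    and (natEq hk (const 3)) (and (oddB_poly (length hv)) (and (cyc_poly hw hn hr)
      (eqB2_poly (sumB_poly (cons hX (cons hX (cons hD (const [])))))
        (sumB_poly (map (f := fun a _ => cD (t a)) hv (hD.comp fst))))))
  exact and h0 (or h1 (or h2 (or h3 h4)))

theorem combP_poly {t : α → T} {v : α → ℕ} (ht : Poly t) (hv : Poly v) :
    Poly (fun a => combP (t a) (v a)) := by
  unfold combP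
  refine sumB_poly (flatMap (f := fun a r => ((rVs r).filter (fun u => decide (u = v a))).map
    (fun _ => rP r)) (cRows_poly ht) ?_)
  refine map (α := α × T) (f := fun p _ => rP p.2)
    (l := fun p => (rVs p.2).filter (fun u => decide (u = v p.1))) ?_ (rP_poly (snd' fst))
  exact filter (α := α × T) (f := fun p u => decide (u = v p.1)) (l := fun p => rVs p.2)
    (rVs_poly snd) (natEq snd (hv.comp (fst' fst)))

theorem combM_poly {t : α → T} {v : α → ℕ} (ht : Poly t) (hv : Poly v) :
    Poly (fun a => combM (t a) (v a)) := by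
  unfold combM
  refine sumB_poly (append (ite (natEq hv (ci_poly ht)) (cons (cD'_poly ht) (const []))
    (const [])) (flatMap (f := fun a r => ((rVs r).filter (fun u => decide (u = v a))).map
    (fun _ => rM r)) (cRows_poly ht) ?_))
  refine map (α := α × T) (f := fun p _ => rM p.2)
    (l := fun p => (rVs p.2).filter (fun u => decide (u = v p.1))) ?_ (rM_poly (snd' fst))
  exact filter (α := α × T) (f := fun p u => decide (u = v p.1)) (l := fun p => rVs p.2)
    (rVs_poly snd) (natEq snd (hv.comp (fst' fst)))

/-- one step of the check of the potentials -/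
theorem step_poly {w : α → List Bool} {n r v u : α → ℕ} {t : α → T} (hw : Poly w) (hn : Poly n)
    (ht : Poly t) (hr : Poly r) (hv : Poly v) (hu : Poly u) :
    Poly (fun a => !(wAdj (w a) (n a) (v a) (u a)) ||
    (leB (addB (cd (t a) (r a) (u a) 1) (addB (cX (t a) (v a)) (cX (t a) (u a))))
      (addB (cd (t a) (r a) (v a) 0) (cD (t a))) &&
     leB (addB (cd (t a) (r a) (u a) 0) (addB (cX (t a) (v a)) (cX (t a) (u a))))
      (addB (cd (t a) (r a) (v a) 1) (cD (t a))))) :=
  or (not (wAdj_poly hw hn hv hu)) (and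
    (leB_poly (addB_poly (cd_poly ht hr hu (const 1)) (addB_poly (cX_poly ht hv) (cX_poly ht hu)))
      (addB_poly (cd_poly ht hr hv (const 0)) (cD_poly ht)))
    (leB_poly (addB_poly (cd_poly ht hr hu (const 0)) (addB_poly (cX_poly ht hv) (cX_poly ht hu)))
      (addB_poly (cd_poly ht hr hv (const 1)) (cD_poly ht))))

theorem chk_poly {w : α → List Bool} {n : α → ℕ} {t : α → T} (hw : Poly w) (hn : Poly n)
    (ht : Poly t) : Poly (fun a => chk (w a) (n a) (t a)) := by
  unfold chk
  have hci := ci_poly ht
  have hXi := cX_poly ht hci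
  have hD := cD_poly ht
  have hR := range hn
  refine and (natLt hci hn) (and (not (leB_poly hXi (const []))) (and (not (leB_poly hD hXi))
    (and (not (leB_poly (cD'_poly ht) (const []))) (and ?_ (and ?_ (and ?_ (and ?_ (and ?_ ?_))))))))
  · exact all (f := fun a v => leB (cX (t a) v) (cD (t a))) hR
      (leB_poly (cX_poly (ht.comp fst) snd) (hD.comp fst))
  · refine all (f := fun a u => (List.range (n a)).all (fun v =>
      !(wAdj (w a) (n a) u v) || leB (addB (cX (t a) u) (cX (t a) v)) (cD (t a)))) hR ?_
    refine all (α := α × ℕ) (f := fun p v =>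
      !(wAdj (w p.1) (n p.1) p.2 v) || leB (addB (cX (t p.1) p.2) (cX (t p.1) v)) (cD (t p.1)))
      (l := fun p => List.range (n p.1)) (hR.comp fst) ?_
    have w2 := hw.comp (fst' (fst (α := α × ℕ) (β := ℕ)))
    have n2 := hn.comp (fst' (fst (α := α × ℕ) (β := ℕ)))
    have t2 := ht.comp (fst' (fst (α := α × ℕ) (β := ℕ)))
    have D2 := hD.comp (fst' (fst (α := α × ℕ) (β := ℕ)))
    exact or (not (wAdj_poly w2 n2 (snd' fst) snd))
      (leB_poly (addB_poly (cX_poly t2 (snd' fst)) (cX_poly t2 snd)) D2)
  · exact all (f := fun a r => rowB (w a) (n a) (t a) r) (cRows_poly ht)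
      (rowB_poly (hw.comp fst) (hn.comp fst) (ht.comp fst) snd)
  · exact all (f := fun a v => eqB2 (combP (t a) v) (combM (t a) v)) hR
      (eqB2_poly (combP_poly (ht.comp fst) snd) (combM_poly (ht.comp fst) snd))
  · exact all (f := fun a r => leB (cd (t a) r r 0) [] && leB (cD (t a)) (cd (t a) r r 1)) hR
      (and (leB_poly (cd_poly (ht.comp fst) snd snd (const 0)) (const []))
        (leB_poly (hD.comp fst) (cd_poly (ht.comp fst) snd snd (const 1))))
  · refine all (f := fun a r => (List.range (n a)).all (fun v => (List.range (n a)).all (fun u =>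
      !(wAdj (w a) (n a) v u) ||
      (leB (addB (cd (t a) r u 1) (addB (cX (t a) v) (cX (t a) u)))
        (addB (cd (t a) r v 0) (cD (t a))) &&
      leB (addB (cd (t a) r u 0) (addB (cX (t a) v) (cX (t a) u)))
        (addB (cd (t a) r v 1) (cD (t a))))))) hR ?_
    refine all (α := α × ℕ) (f := fun p v => (List.range (n p.1)).all (fun u =>
      !(wAdj (w p.1) (n p.1) v u) ||
      (leB (addB (cd (t p.1) p.2 u 1) (addB (cX (t p.1) v) (cX (t p.1) u)))
        (addB (cd (t p.1) p.2 v 0) (cD (t p.1))) &&
      leB (addB (cd (t p.1) p.2 u 0) (addB (cX (t p.1) v) (cX (t p.1) u)))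
        (addB (cd (t p.1) p.2 v 1) (cD (t p.1))))))
      (l := fun p => List.range (n p.1)) (hR.comp fst) ?_
    refine all (α := (α × ℕ) × ℕ) (f := fun p u =>
      !(wAdj (w p.1.1) (n p.1.1) p.2 u) ||
      (leB (addB (cd (t p.1.1) p.1.2 u 1) (addB (cX (t p.1.1) p.2) (cX (t p.1.1) u)))
        (addB (cd (t p.1.1) p.1.2 p.2 0) (cD (t p.1.1))) &&
      leB (addB (cd (t p.1.1) p.1.2 u 0) (addB (cX (t p.1.1) p.2) (cX (t p.1.1) u)))
        (addB (cd (t p.1.1) p.1.2 p.2 1) (cD (t p.1.1)))))
      (l := fun p => List.range (n p.1.1)) (hR.comp (fst' fst)) ?_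
    have a3 := fst' (fst' (fst (α := (α × ℕ) × ℕ) (β := ℕ)))
    exact step_poly (hw.comp a3) (hn.comp a3) (ht.comp a3) (snd' (fst' fst)) (snd' fst) snd

theorem rootOf_poly {w : α → List Bool} (hw : Poly w) : Poly (fun a => rootOf (w a)) := by
  unfold rootOf
  exact headD _ (filter (f := fun a k => decide (k * k = (w a).length)) (range (succ (length hw)))
    (natEq (mul snd snd) (length (hw.comp fst))))

theorem goodW_poly {w : α → List Bool} (hw : Poly w) : Poly (fun a => goodW (w a)) := by
  unfold goodW
  have hR := rootOf_poly hw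
  refine and (natEq (mul hR hR) (length hw)) (and ?_ ?_)
  · exact all (f := fun a i => !(wAdj (w a) (rootOf (w a)) i i)) (range hR)
      (not (wAdj_poly (hw.comp fst) (hR.comp fst) snd snd))
  · refine all (f := fun a i => (List.range (rootOf (w a))).all (fun j =>
      !(wAdj (w a) (rootOf (w a)) i j) || wAdj (w a) (rootOf (w a)) j i)) (range hR) ?_
    refine all (α := α × ℕ) (f := fun p j =>
      !(wAdj (w p.1) (rootOf (w p.1)) p.2 j) || wAdj (w p.1) (rootOf (w p.1)) j p.2)
      (l := fun p => List.range (rootOf (w p.1))) ((range hR).comp fst) ?_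
    have w2 := hw.comp (fst' (fst (α := α × ℕ) (β := ℕ)))
    have n2 := hR.comp (fst' (fst (α := α × ℕ) (β := ℕ)))
    exact or (not (wAdj_poly w2 n2 (snd' fst) snd)) (wAdj_poly w2 n2 snd (snd' fst))

end

theorem verif_poly : Poly verif := by
  unfold verif
  exact Poly.or (Poly.not (goodW_poly Poly.fst)) (chk_poly Poly.fst (rootOf_poly Poly.fst) Poly.snd)

end Pool.Agent.H43.TP
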