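import Pool.Agent.H43.TPM.VDef
import Pool.Agent.H43.TPM.BIN

/-!
# Building certificate trees

PROOF. `ofL : List T → T` (inverse of `toL`, size `1 + ∑ (size + 1)`), `ofN m = ofL (replicate m leaf)` (size `2 m + 1`),
`ofBits l = ofL (l.map (bif · then node leaf leaf else leaf))` (size `≤ 1 + 4 * length`). Numbers `< 2 ^ k` are written with `k` digits
(`exists_bits`), size `≤ 4 k + 1`. Certificate:
`ofL [ofN i₀, D, D', ofL (X 0 .. X (n-1)), ofL rows, ofL (for r < n: ofL (d r 0 0, d r 0 1, d r 1 0, d r 1 1, ...))]`, each row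
`ofL [ofN kind, ofL (vs.map ofN), lp, lm]`. Sizes: with `vs` of length `≤ n + 1` and entries `< n`, kind `≤ 3`:
a row has size `≤ 1 + 4 + 7 + (1 + (n + 1) (2 n + 2)) + 2 (4 k + 1)`; everything is at most
`100 * (n + 1) ^ 3 * (k + 1)`, say (the proof may use any rough bound below this one).
-/

set_option autoImplicit false

namespace Pool.Agent.H43.TP

open Pool.Agent.H83

/-- A list of trees as a tree. -/
def ofL : List T → T
  | [] => .leaf
  | t :: l => .node t (ofL l)

theorem toL_ofL (l : List T) : toL (ofL l) = l := by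
  induction l with
  | nil => rfl
  | cons t l ih => rw [ofL, toL, ih]

theorem size_ofL (l : List T) : (ofL l).size = 1 + (l.map fun t => t.size + 1).sum := by
  induction l with
  | nil => rfl
  | cons t l ih =>
    rw [ofL, T.size, ih, List.map_cons, List.sum_cons]
    omega

theorem size_ofL_le {l : List T} {c m : ℕ} (hc : ∀ t ∈ l, t.size + 1 ≤ c) (hm : l.length ≤ m) :
    (ofL l).size ≤ 1 + m * c := by
  rw [size_ofL]
  have h1 : (l.map fun t => t.size + 1).sum ≤ l.length * c := by
    have := List.sum_le_card_nsmul (l.map fun t => t.size + 1) c (by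
      intro x hx
      obtain ⟨t, ht, rfl⟩ := List.mem_map.1 hx
      exact hc t ht)
    simpa using this
  have h2 : l.length * c ≤ m * c := Nat.mul_le_mul_right _ hm
  omega

theorem nthT_ofL (l : List T) (k : ℕ) (h : k < l.length) : nthT k (ofL l) = l[k] := by
  unfold nthT
  rw [toL_ofL, List.drop_eq_getElem_cons h]
  rfl

theorem nthT_map {f : ℕ → T} {m k : ℕ} (h : k < m) :
    nthT k (ofL ((List.range m).map f)) = f k := by
  rw [nthT_ofL _ _ (by simpa using h)]
  simp

/-- A number as a tree. -/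
def ofN (m : ℕ) : T := ofL (List.replicate m .leaf)

theorem toN_ofN (m : ℕ) : toN (ofN m) = m := by
  unfold toN ofN
  rw [toL_ofL, List.length_replicate]

theorem size_ofN (m : ℕ) : (ofN m).size ≤ 1 + m * 2 := by
  unfold ofN
  refine size_ofL_le (fun t ht => ?_) (by simp)
  rw [List.eq_of_mem_replicate ht]
  exact le_rfl

/-- A list of digits as a tree. -/
def ofBits (l : List Bool) : T := ofL (l.map fun b => bif b then .node .leaf .leaf else .leaf)

theorem toBits_ofBits (l : List Bool) : toBits (ofBits l) = l := by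
  unfold toBits ofBits
  rw [toL_ofL, List.map_map]
  conv_rhs => rw [← List.map_id l]
  refine List.map_congr_left fun b _ => ?_
  cases b <;> rfl

theorem size_ofBits (l : List Bool) : (ofBits l).size ≤ 1 + l.length * 4 := by
  unfold ofBits
  refine size_ofL_le (fun t ht => ?_) (by simp)
  obtain ⟨b, -, rfl⟩ := List.mem_map.1 ht
  cases b
  · show T.size .leaf + 1 ≤ 4
    simp [T.size]
  · show T.size (.node .leaf .leaf) + 1 ≤ 4
    simp [T.size]

open Classical in
/-- A number `< 2 ^ k` in binary, as a tree. -/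
noncomputable def numT (k m : ℕ) : T :=
  if h : m < 2 ^ k then ofBits (exists_bits k m h).choose else .leaf

theorem val_numT {k m : ℕ} (h : m < 2 ^ k) : val (toBits (numT k m)) = m := by
  unfold numT
  rw [dif_pos h, toBits_ofBits]
  exact (exists_bits k m h).choose_spec.2

theorem size_numT (k m : ℕ) : (numT k m).size ≤ 1 + k * 4 := by
  unfold numT
  split_ifs with h
  · have h1 := size_ofBits (exists_bits k m h).choose
    rwa [(exists_bits k m h).choose_spec.1] at h1
  · simp [T.size]

/-- A row as a tree. -/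
noncomputable def rowT (k : ℕ) (r : Row) : T :=
  ofL [ofN r.1, ofL (r.2.1.map ofN), numT k r.2.2.1, numT k r.2.2.2]

theorem rowT_spec {k : ℕ} {r : Row} (h1 : r.2.2.1 < 2 ^ k) (h2 : r.2.2.2 < 2 ^ k) :
    (rKind (rowT k r), rVs (rowT k r), val (rP (rowT k r)), val (rM (rowT k r))) = r := by
  have e0 : rKind (rowT k r) = r.1 := by
    unfold rKind rowT
    rw [nthT_ofL _ 0 (by simp)]
    exact toN_ofN _
  have e1 : rVs (rowT k r) = r.2.1 := by
    unfold rVs rowT
    rw [nthT_ofL _ 1 (by simp)]
    show (toL (ofL (r.2.1.map ofN))).map toN = r.2.1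
    rw [toL_ofL, List.map_map]
    conv_rhs => rw [← List.map_id r.2.1]
    exact List.map_congr_left fun v _ => toN_ofN v
  have e2 : val (rP (rowT k r)) = r.2.2.1 := by
    unfold rP rowT
    rw [nthT_ofL _ 2 (by simp)]
    exact val_numT h1
  have e3 : val (rM (rowT k r)) = r.2.2.2 := by
    unfold rM rowT
    rw [nthT_ofL _ 3 (by simp)]
    exact val_numT h2
  rw [e0, e1, e2, e3]

theorem size_rowT {n k : ℕ} {r : Row} (h1 : r.1 ≤ 3) (h2 : r.2.1.length ≤ n + 1)
    (h3 : ∀ v ∈ r.2.1, v < n) :
    (rowT k r).size ≤ 15 + (n + 1) * (2 * n) + 8 * k := by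
  unfold rowT
  rw [size_ofL]
  have e0 := size_ofN r.1
  have e1 : (ofL (r.2.1.map ofN)).size ≤ 1 + (n + 1) * (2 * n) := by
    refine size_ofL_le (fun t ht => ?_) (by simpa using h2)
    obtain ⟨v, hv, rfl⟩ := List.mem_map.1 ht
    have h4 := size_ofN v
    have h5 := h3 v hv
    omega
  have e2 := size_numT k r.2.2.1
  have e3 := size_numT k r.2.2.2
  simp only [List.map_cons, List.map_nil, List.sum_cons, List.sum_nil]
  omega

theorem exists_tree (n k : ℕ) (i₀ D D' : ℕ) (X : ℕ → ℕ) (rows : List Row) (d : ℕ → ℕ → ℕ → ℕ)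
    (hi : i₀ < n) (hD : D < 2 ^ k) (hD' : D' < 2 ^ k) (hX : ∀ v, X v < 2 ^ k)
    (hrows : rows.length ≤ n)
    (hr : ∀ r ∈ rows, r.1 ≤ 3 ∧ r.2.1.length ≤ n + 1 ∧ (∀ v ∈ r.2.1, v < n) ∧
      r.2.2.1 < 2 ^ k ∧ r.2.2.2 < 2 ^ k)
    (hd : ∀ r v e, d r v e < 2 ^ k) :
    ∃ t : T, t.size ≤ 100 * (n + 1) ^ 3 * (k + 1) ∧ ci t = i₀ ∧ val (cD t) = D ∧
      val (cD' t) = D' ∧ (∀ v < n, val (cX t v) = X v) ∧
      (cRows t).map (fun r => (rKind r, rVs r, val (rP r), val (rM r))) = rows ∧
      ∀ r < n, ∀ v < n, ∀ e < 2, val (cd t r v e) = d r v e := by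
  refine ⟨ofL [ofN i₀, numT k D, numT k D', ofL ((List.range n).map fun v => numT k (X v)),
    ofL (rows.map (rowT k)), ofL ((List.range n).map fun r => ofL ((List.range (2 * n)).map
      fun j => numT k (d r (j / 2) (j % 2))))], ?_, ?_, ?_, ?_, ?_, ?_, ?_⟩
  · have e0 := size_ofN i₀
    have e1 := size_numT k D
    have e2 := size_numT k D'
    have e3 : (ofL ((List.range n).map fun v => numT k (X v))).size ≤ 1 + n * (2 + k * 4) := by
      refine size_ofL_le (fun t ht => ?_) (by simp)
      obtain ⟨v, -, rfl⟩ := List.mem_map.1 ht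
      have := size_numT k (X v)
      omega
    have e4 : (ofL (rows.map (rowT k))).size ≤ 1 + n * (16 + (n + 1) * (2 * n) + 8 * k) := by
      refine size_ofL_le (fun t ht => ?_) (by simpa using hrows)
      obtain ⟨r, hr', rfl⟩ := List.mem_map.1 ht
      obtain ⟨h1, h2, h3, -, -⟩ := hr r hr'
      have := size_rowT (k := k) h1 h2 h3
      omega
    have e5 : (ofL ((List.range n).map fun r => ofL ((List.range (2 * n)).map
        fun j => numT k (d r (j / 2) (j % 2))))).size ≤ 1 + n * (2 + 2 * n * (2 + k * 4)) := by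
      refine size_ofL_le (fun t ht => ?_) (by simp)
      obtain ⟨r, -, rfl⟩ := List.mem_map.1 ht
      have h1 : (ofL ((List.range (2 * n)).map
          fun j => numT k (d r (j / 2) (j % 2)))).size ≤ 1 + 2 * n * (2 + k * 4) := by
        refine size_ofL_le (fun t ht => ?_) (by simp)
        obtain ⟨j, -, rfl⟩ := List.mem_map.1 ht
        have := size_numT k (d r (j / 2) (j % 2))
        omega
      omega
    rw [size_ofL]
    simp only [List.map_cons, List.map_nil, List.sum_cons, List.sum_nil]
    have hfin : 20 + 2 * n + 8 * k + n * (2 + k * 4) + n * (16 + (n + 1) * (2 * n) + 8 * k) +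
        n * (2 + 2 * n * (2 + k * 4)) ≤ 100 * (n + 1) ^ 3 * (k + 1) := by
      have h1 : 100 * (n + 1) ^ 3 * (k + 1) = 100 * (n ^ 3 * k) + 100 * n ^ 3 + 300 * (n ^ 2 * k) +
          300 * n ^ 2 + 300 * (n * k) + 300 * n + 100 * k + 100 := by ring
      have h2 : 20 + 2 * n + 8 * k + n * (2 + k * 4) + n * (16 + (n + 1) * (2 * n) + 8 * k) +
        n * (2 + 2 * n * (2 + k * 4)) = 2 * n ^ 3 + 8 * (n ^ 2 * k) + 6 * n ^ 2 + 12 * (n * k) +
          22 * n + 8 * k + 20 := by ring
      rw [h1, h2]
      omega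
    omega
  · unfold ci
    rw [nthT_ofL _ 0 (by simp)]
    exact toN_ofN _
  · unfold cD
    rw [nthT_ofL _ 1 (by simp)]
    exact val_numT hD
  · unfold cD'
    rw [nthT_ofL _ 2 (by simp)]
    exact val_numT hD'
  · intro v hv
    unfold cX
    rw [nthT_ofL _ 3 (by simp)]
    show val (toBits (nthT v (ofL ((List.range n).map fun v => numT k (X v))))) = X v
    rw [nthT_map hv]
    exact val_numT (hX v)
  · unfold cRows
    rw [nthT_ofL _ 4 (by simp)]
    show (toL (ofL (rows.map (rowT k)))).map _ = rows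
    rw [toL_ofL, List.map_map]
    conv_rhs => rw [← List.map_id rows]
    refine List.map_congr_left fun r hr' => ?_
    obtain ⟨-, -, -, h4, h5⟩ := hr r hr'
    exact rowT_spec h4 h5
  · intro r hr' v hv e he
    unfold cd
    rw [nthT_ofL _ 5 (by simp)]
    show val (toBits (nthT (v * 2 + e) (nthT r (ofL ((List.range n).map fun r =>
      ofL ((List.range (2 * n)).map fun j => numT k (d r (j / 2) (j % 2)))))))) = d r v e
    rw [nthT_map hr', nthT_map (by omega)]
    have h1 : (v * 2 + e) / 2 = v := by omega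
    have h2 : (v * 2 + e) % 2 = e := by omega
    rw [h1, h2]
    exact val_numT (hd r v e)

end Pool.Agent.H43.TP
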