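import Pool.Agent.H43.TPM.MDef

/-!
# Certificates depend only on the values below `n`

All conditions of `CertOK` use `adj i j`, `X v`, `d r v e` only for `i, j, v, r < n` and `e ∈ {0, 1}` (for rows: all the vertices
are `< n`, so `List.map_congr_left` for the sums; `getD i 0` of the list for `i < length` is a member of the list,
for kind 2 and 3; `(i + 1) % length < length`).
-/

set_option autoImplicit false

namespace Pool.Agent.H43.TP

theorem CGR_getD {l : List ℕ} {n : ℕ} (h : ∀ v ∈ l, v < n) {i : ℕ} (hi : i < l.length) :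
    l.getD i 0 < n := by
  rw [List.getD_eq_getElem _ _ hi]
  exact h _ (List.getElem_mem hi)

theorem CGR_row {n : ℕ} {adj adj' : ℕ → ℕ → Prop} {D : ℕ} {X X' : ℕ → ℕ} {r : Row}
    (h : RowOK n adj D X r) (hadj : ∀ i < n, ∀ j < n, (adj i j ↔ adj' i j))
    (hX : ∀ v < n, X v = X' v) : RowOK n adj' D X' r := by
  obtain ⟨h1, h2⟩ := h
  have hs : (r.2.1.map X) = (r.2.1.map X') := List.map_congr_left fun v hv => hX v (h1 v hv)
  refine ⟨h1, ?_⟩
  rw [hs] at h2
  rcases h2 with h2 | h2 | h2 | h2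
  · exact Or.inl h2
  · exact Or.inr (Or.inl h2)
  · obtain ⟨a, b, c, e⟩ := h2
    refine Or.inr (Or.inr (Or.inl ⟨a, b, ?_, e⟩))
    exact (hadj _ (CGR_getD h1 (by omega)) _ (CGR_getD h1 (by omega))).mp c
  · obtain ⟨a, b, c, e⟩ := h2
    refine Or.inr (Or.inr (Or.inr ⟨a, b, ?_, e⟩))
    intro i hi
    exact (hadj _ (CGR_getD h1 hi) _ (CGR_getD h1 (Nat.mod_lt _ (by omega)))).mp (c i hi)

theorem CertOK.congr {n : ℕ} {adj adj' : ℕ → ℕ → Prop} {i₀ D D' : ℕ} {X X' : ℕ → ℕ}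
    {rows : List Row} {d d' : ℕ → ℕ → ℕ → ℕ} (h : CertOK n adj i₀ D D' X rows d)
    (hadj : ∀ i < n, ∀ j < n, (adj i j ↔ adj' i j)) (hX : ∀ v < n, X v = X' v)
    (hd : ∀ r < n, ∀ v < n, ∀ e < 2, d r v e = d' r v e) :
    CertOK n adj' i₀ D D' X' rows d' where
  i₀n := h.i₀n
  posX := hX _ h.i₀n ▸ h.posX
  ltX := hX _ h.i₀n ▸ h.ltX
  posD' := h.posD'
  box := fun v hv => hX v hv ▸ h.box v hv
  edge := fun u hu v hv huv => by
    rw [← hX u hu, ← hX v hv]
    exact h.edge u hu v hv ((hadj u hu v hv).mpr huv)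
  rowsOK := fun r hr => CGR_row (h.rowsOK r hr) hadj hX
  comb := h.comb
  d0 := fun r hr => by
    rw [← hd r hr r hr 0 (by norm_num)]
    exact h.d0 r hr
  d1 := fun r hr => by
    rw [← hd r hr r hr 1 (by norm_num)]
    exact h.d1 r hr
  dstep := fun r hr v hv w hw hvw => by
    rw [← hd r hr w hw 1 (by norm_num), ← hd r hr w hw 0 (by norm_num), ← hd r hr v hv 1 (by norm_num),
      ← hd r hr v hv 0 (by norm_num), ← hX v hv, ← hX w hw]
    exact h.dstep r hr v hv w hw ((hadj v hv w hw).mpr hvw)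

end Pool.Agent.H43.TP
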