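import Pool.Agent.H43.TPM.OCW

/-!
# Potentials exist

PROOF. For `r v : Fin n` and a parity `e ∈ {0, 1}` let `dd r v e` be the least element of the set of natural numbers
`{D} ∪ {m | ∃ w : G.Walk r v, w.length % 2 = e, (m : ℝ) = D * slack x w}`, `x v = X v / D` (`Nat.find` / `sInf`; the scaled slack
of a walk is the natural number `∑ (D - X - X)` because of the edge inequalities). Properties: `dd r r 0 = 0`
(nil walk); `dd r r 1 = D`: every odd closed walk has slack `≥ 1` (`one_le_slack`); `dd ≤ D`; adding a step to a walk: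
`dd r w (1-e) ≤ dd r v e + (D - X v - X w)`. Outside of `Fin n` put `0`.
-/

set_option autoImplicit false

namespace Pool.Agent.H43.TP

theorem POT_slack_append {V : Type} {G : SimpleGraph V} (x : V → ℝ) {i j k : V} (P : G.Walk i j)
    (Q : G.Walk j k) : slack x (P.append Q) = slack x P + slack x Q := by
  induction P with
  | nil => simp [slack]
  | cons h w ih =>
    rw [SimpleGraph.Walk.cons_append]
    simp only [slack]
    rw [ih Q, add_assoc]

/-- the possible scaled slacks, with the cut off -/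
def POT_S {n : ℕ} (G : SimpleGraph (Fin n)) (D : ℕ) (X : ℕ → ℕ) (r v : Fin n) (e : ℕ) : Set ℕ :=
  {D} ∪ {m | ∃ w : G.Walk r v, w.length % 2 = e ∧ (m : ℝ) = D * slack (fun v : Fin n => (X v : ℝ) / D) w}

/-- the potential -/
noncomputable def POT_d {n : ℕ} (G : SimpleGraph (Fin n)) (D : ℕ) (X : ℕ → ℕ) (r v e : ℕ) : ℕ :=
  open Classical in if h : r < n ∧ v < n then sInf (POT_S G D X ⟨r, h.1⟩ ⟨v, h.2⟩ e) else 0

theorem POT_step {n : ℕ} {G : SimpleGraph (Fin n)} {D : ℕ} (hD : 0 < D) {X : ℕ → ℕ}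
    (he : ∀ u v : Fin n, G.Adj u v → X u + X v ≤ D) {r v w : Fin n} (h : G.Adj v w) {e e' : ℕ}
    (hee : ∀ l : ℕ, l % 2 = e → (l + 1) % 2 = e') :
    sInf (POT_S G D X r w e') + (X v + X w) ≤ sInf (POT_S G D X r v e) + D := by
  have hvw := he v w h
  have hD0 : (D : ℝ) ≠ 0 := by exact_mod_cast hD.ne'
  have hne : (POT_S G D X r v e).Nonempty := ⟨D, Or.inl rfl⟩
  have h1 : sInf (POT_S G D X r w e') ≤ D := Nat.sInf_le (Or.inl rfl)
  rcases Nat.sInf_mem hne with h2 | ⟨p, hp, h2⟩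
  · rw [Set.mem_singleton_iff] at h2
    omega
  · have h3 : (sInf (POT_S G D X r v e) + D - (X v + X w)) ∈ POT_S G D X r w e' := by
      refine Or.inr ⟨p.append (SimpleGraph.Walk.cons h SimpleGraph.Walk.nil), ?_, ?_⟩
      · rw [SimpleGraph.Walk.length_append, SimpleGraph.Walk.length_cons, SimpleGraph.Walk.length_nil]
        exact hee _ hp
      · rw [POT_slack_append, mul_add, ← h2]
        simp only [slack]
        rw [Nat.cast_sub (by omega)]
        push_cast
        field_simp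
        ring
    have h4 := Nat.sInf_le h3
    omega

theorem exists_potential {n : ℕ} (G : SimpleGraph (Fin n)) (D : ℕ) (hD : 0 < D) (X : ℕ → ℕ)
    (hx : (fun v : Fin n => (X v : ℝ) / D) ∈ oddCyclePolytope G) :
    ∃ d : ℕ → ℕ → ℕ → ℕ, (∀ r v e, d r v e ≤ D) ∧ (∀ r < n, d r r 0 = 0) ∧
      (∀ r < n, D ≤ d r r 1) ∧
      ∀ r < n, ∀ v < n, ∀ w < n, nAdj G v w →
        d r w 1 + (X v + X w) ≤ d r v 0 + D ∧ d r w 0 + (X v + X w) ≤ d r v 1 + D := by
  have hD0 : (0 : ℝ) < D := by exact_mod_cast hD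
  have he : ∀ u v : Fin n, G.Adj u v → X u + X v ≤ D := by
    intro u v huv
    have h1 := hx.2.1 u v huv
    simp only at h1
    rw [← add_div, div_le_one hD0] at h1
    exact_mod_cast h1
  refine ⟨POT_d G D X, ?_, ?_, ?_, ?_⟩
  · intro r v e
    unfold POT_d
    split_ifs with h
    · exact Nat.sInf_le (Or.inl rfl)
    · exact Nat.zero_le _
  · intro r hr
    unfold POT_d
    rw [dif_pos ⟨hr, hr⟩]
    rw [← Nat.le_zero]
    apply Nat.sInf_le
    refine Or.inr ⟨SimpleGraph.Walk.nil, by simp, by simp [slack]⟩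
  · intro r hr
    unfold POT_d
    rw [dif_pos ⟨hr, hr⟩]
    have hne : (POT_S G D X ⟨r, hr⟩ ⟨r, hr⟩ 1).Nonempty := ⟨D, Or.inl rfl⟩
    rcases Nat.sInf_mem hne with h2 | ⟨p, hp, h2⟩
    · rw [Set.mem_singleton_iff] at h2
      exact h2.ge
    · have h3 := one_le_slack hx p (Nat.odd_iff.mpr hp)
      have h4 : (D : ℝ) ≤ ((sInf (POT_S G D X ⟨r, hr⟩ ⟨r, hr⟩ 1) : ℕ) : ℝ) := by
        rw [h2]
        nlinarith
      exact_mod_cast h4
  · intro r hr v hv w hw hvw
    obtain ⟨hi, hj, hadj⟩ := hvw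
    unfold POT_d
    rw [dif_pos ⟨hr, hw⟩, dif_pos ⟨hr, hv⟩, dif_pos ⟨hr, hw⟩, dif_pos ⟨hr, hv⟩]
    constructor
    · exact POT_step hD he (v := ⟨v, hv⟩) (w := ⟨w, hw⟩) hadj (fun l hl => by omega)
    · exact POT_step hD he (v := ⟨v, hv⟩) (w := ⟨w, hw⟩) hadj (fun l hl => by omega)

end Pool.Agent.H43.TP
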