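import Pool.Agent.H43.TPM.CRM
import Pool.Agent.H43.TPM.POT

/-!
# Completeness of certificates

PROOF. Let `G` be t-imperfect. `exists_vertex` gives `x` and `i₀`, `exists_integral` gives `D, X, a, β, l`. `D' = D`.
Rows: for each `j : Fin n` a row of the kind given by `TightVec G x (a j) (β j)`: `0`, `[v]` if `a j = 1_v`, `β j = 0`;
`1`, `[v]` if `β j = 1`; `2`, `[u, v]` for an edge; `3` and the list of the vertices of the odd cycle in cyclic order
(`c.support.tail` as numbers; `cycle_support_tail`: nodup; consecutive vertices are adjacent: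
`c.support.IsChain Adj`, the last element of `c.support.tail` is `v`, the end of `c`) for an odd cycle; coefficients
`lp = (l j).toNat`, `lm = (- l j).toNat`. All lists are without repetitions, so `count v` is `a j v` (as a number), lengths `≤ n`.
`comb`: from the last property of `exists_integral` (cast to `ℕ`). `X` is extended by `0` to `ℕ`.
`x ∈ Q(G)` gives `box`, `edge`; `exists_potential` gives `d` (`x v = X v / D`).
-/

set_option autoImplicit false

namespace Pool.Agent.H43.TP

/-- extension by `0` -/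
private def CMP_ext {n : ℕ} (X : Fin n → ℕ) (v : ℕ) : ℕ := if h : v < n then X ⟨v, h⟩ else 0

private theorem CMP_ext_val {n : ℕ} (X : Fin n → ℕ) (v : Fin n) : CMP_ext X v.val = X v := by
  simp [CMP_ext]

private theorem CMP_count {n : ℕ} (L : List (Fin n)) (hL : L.Nodup) (v : Fin n) :
    (((L.map Fin.val).count v.val : ℕ) : ℝ) = ({w | w ∈ L} : Set (Fin n)).indicator 1 v := by
  rw [List.count_map_of_injective _ _ Fin.val_injective]
  by_cases h : v ∈ L
  · rw [List.count_eq_one_of_mem hL h, Set.indicator_of_mem (show v ∈ {w | w ∈ L} from h)]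
    simp
  · rw [List.count_eq_zero_of_not_mem h, Set.indicator_of_notMem (show v ∉ {w | w ∈ L} from h)]
    simp

private theorem CMP_sum {n : ℕ} (L : List (Fin n)) (hL : L.Nodup) (X : Fin n → ℕ) (D : ℕ)
    (x : Fin n → ℝ) (hX : ∀ v, (X v : ℝ) = D * x v) {β : ℝ}
    (h : ∑ᶠ v, ({w | w ∈ L} : Set (Fin n)).indicator 1 v * x v = β) :
    ((((L.map Fin.val).map (CMP_ext X)).sum : ℕ) : ℝ) = D * β := by
  classical
  rw [finsum_eq_sum_of_fintype] at h
  have h1 : ((L.map Fin.val).map (CMP_ext X)) = L.map X := by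
    rw [List.map_map]
    exact List.map_congr_left fun v _ => CMP_ext_val X v
  have h2 : (L.map X).sum = ∑ v ∈ L.toFinset, X v := (List.sum_toFinset X hL).symm
  rw [h1, h2, ← h]
  push_cast
  rw [Finset.mul_sum, ← Finset.sum_filter_add_sum_filter_not Finset.univ (fun v => v ∈ L)]
  rw [Finset.sum_eq_zero (s := Finset.univ.filter (fun v => ¬ v ∈ L)), add_zero]
  · have : L.toFinset = Finset.univ.filter (fun v => v ∈ L) := by
      ext v; simp
    rw [this]
    refine Finset.sum_congr rfl fun v hv => ?_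
    rw [Set.indicator_of_mem (show v ∈ {w | w ∈ L} from (Finset.mem_filter.1 hv).2), hX v]
    simp
  · intro v hv
    rw [Set.indicator_of_notMem (show v ∉ {w | w ∈ L} from (Finset.mem_filter.1 hv).2)]
    simp

private theorem CMP_length {n : ℕ} (L : List (Fin n)) (hL : L.Nodup) :
    (L.map Fin.val).length ≤ n + 1 := by
  rw [List.length_map]
  have := hL.length_le_card
  rw [Fintype.card_fin] at this
  omega

private theorem CMP_row {n : ℕ} (G : SimpleGraph (Fin n)) (X : Fin n → ℕ) (D : ℕ)
    (x : Fin n → ℝ) (hX : ∀ v, (X v : ℝ) = D * x v) (a : Fin n → ℝ) (β : ℝ)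
    (h : TightVec G x a β) :
    ∃ (k : ℕ) (L : List ℕ), (∀ p m : ℕ, RowOK n (nAdj G) D (CMP_ext X) (k, L, p, m)) ∧
      (∀ v : Fin n, ((L.count v.val : ℕ) : ℝ) = a v) ∧ L.length ≤ n + 1 := by
  classical
  obtain ⟨hs, h⟩ := h
  rcases h with ⟨v, rfl, hβ⟩ | ⟨u, v, huv, rfl, rfl⟩ | ⟨C, ⟨v, c, hc, hodd, hC⟩, rfl, rfl⟩
  · -- bounds
    have hset : ({v} : Set (Fin n)) = {w | w ∈ [v]} := by ext w; simp
    have hnd : [v].Nodup := List.nodup_singleton v
    rw [hset] at hs ⊢
    have hsum := CMP_sum [v] hnd X D x hX hs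
    have hlt : ∀ w ∈ [v].map Fin.val, w < n := by
      intro w hw
      obtain ⟨w', -, rfl⟩ := List.mem_map.1 hw
      exact w'.isLt
    rcases hβ with rfl | rfl
    · refine ⟨0, [v].map Fin.val, fun p m => ⟨hlt, Or.inl ⟨rfl, rfl, ?_⟩⟩,
        fun w => CMP_count [v] hnd w, CMP_length [v] hnd⟩
      rw [mul_zero] at hsum
      exact_mod_cast hsum
    · refine ⟨1, [v].map Fin.val, fun p m => ⟨hlt, Or.inr (Or.inl ⟨rfl, rfl, ?_⟩)⟩,
        fun w => CMP_count [v] hnd w, CMP_length [v] hnd⟩
      rw [mul_one] at hsum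
      exact_mod_cast hsum
  · -- edges
    have hset : ({u, v} : Set (Fin n)) = {w | w ∈ [u, v]} := by ext w; simp
    have hnd : [u, v].Nodup := by
      simp [huv.ne]
    rw [hset] at hs ⊢
    have hsum := CMP_sum [u, v] hnd X D x hX hs
    refine ⟨2, [u, v].map Fin.val, fun p m => ⟨?_, Or.inr (Or.inr (Or.inl ⟨rfl, rfl, ?_, ?_⟩))⟩,
      fun w => CMP_count [u, v] hnd w, CMP_length [u, v] hnd⟩
    · intro w hw
      obtain ⟨w', -, rfl⟩ := List.mem_map.1 hw
      exact w'.isLt
    · exact ⟨u.isLt, v.isLt, huv⟩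
    · rw [mul_one] at hsum
      exact_mod_cast hsum
  · -- odd cycles
    obtain ⟨hnd, h2, h3, h4⟩ := cycle_support_tail G C v c hc hC
    have hset : (C : Set (Fin n)) = {w | w ∈ c.support.tail} := by
      ext w
      rw [← h2]
      simp
    rw [hset] at hs ⊢
    have hsum := CMP_sum c.support.tail hnd X D x hX hs
    have hlen : (c.support.tail.map Fin.val).length = c.length := by rw [List.length_map, h3]
    have hget : ∀ i, i < c.length → (c.support.tail.map Fin.val).getD i 0 =
        (c.getVert (i + 1)).val := by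
      intro i hi
      have hi' : i < (c.support.tail.map Fin.val).length := by rw [hlen]; exact hi
      rw [List.getD_eq_getElem _ _ hi', List.getElem_map, List.getElem_tail]
      rw [SimpleGraph.Walk.support_getElem_eq_getVert]
    refine ⟨3, c.support.tail.map Fin.val, fun p m => ⟨?_, Or.inr (Or.inr (Or.inr
      ⟨rfl, ?_, ?_, ?_⟩))⟩, fun w => CMP_count c.support.tail hnd w, CMP_length c.support.tail hnd⟩
    · intro w hw
      obtain ⟨w', -, rfl⟩ := List.mem_map.1 hw
      exact w'.isLt
    · show Odd (c.support.tail.map Fin.val).length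
      rw [hlen]; exact hodd
    · show ∀ i < (c.support.tail.map Fin.val).length, nAdj G ((c.support.tail.map Fin.val).getD i 0)
        ((c.support.tail.map Fin.val).getD ((i + 1) % (c.support.tail.map Fin.val).length) 0)
      intro i hi
      rw [hlen] at hi ⊢
      have hlt : (i + 1) % c.length < c.length := Nat.mod_lt _ (by omega)
      rw [hget i hi, hget _ hlt]
      refine ⟨Fin.isLt _, Fin.isLt _, ?_⟩
      show G.Adj (c.getVert (i + 1)) (c.getVert ((i + 1) % c.length + 1))
      rcases Nat.lt_or_ge (i + 1) c.length with hi1 | hi1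
      · rw [Nat.mod_eq_of_lt hi1]
        exact c.adj_getVert_succ hi1
      · have : i + 1 = c.length := by omega
        rw [this, Nat.mod_self, SimpleGraph.Walk.getVert_length]
        have h0 := c.adj_getVert_succ (show 0 < c.length by omega)
        rwa [SimpleGraph.Walk.getVert_zero] at h0
    · show 2 * ((c.support.tail.map Fin.val).map (CMP_ext X)).sum + D =
        (c.support.tail.map Fin.val).length * D
      rw [hlen, ← h4]
      have : (2 * (((c.support.tail.map Fin.val).map (CMP_ext X)).sum : ℕ) + D : ℝ) = C.card * D := by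
        rw [hsum]; ring
      exact_mod_cast this

theorem exists_cert {n : ℕ} (G : SimpleGraph (Fin n)) (h : ¬ TPerfect G) :
    ∃ (i₀ D D' : ℕ) (X : ℕ → ℕ) (rows : List Row) (d : ℕ → ℕ → ℕ → ℕ),
      CertOK n (nAdj G) i₀ D D' X rows d ∧ D ≤ n.factorial ∧ D' ≤ n.factorial ∧
      (∀ v, X v ≤ n.factorial) ∧ rows.length = n ∧
      (∀ r ∈ rows, r.2.1.length ≤ n + 1 ∧ r.2.2.1 ≤ n.factorial ∧ r.2.2.2 ≤ n.factorial) ∧
      ∀ r v e, d r v e ≤ n.factorial := by
  classical
  obtain ⟨x, hx, ⟨i₀, hi0, hi1⟩, hspan⟩ := exists_vertex G h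
  obtain ⟨D, X, a, β, l, hD, hDn, hX, htight, hl, hcomb⟩ :=
    exists_integral G x (fun v => (hx.1 v).1) hspan i₀
  have hDr : (0 : ℝ) < D := by exact_mod_cast hD
  choose k L hrow hcount hlen using fun j => CMP_row G X D x hX (a j) (β j) (htight j)
  have hxX : (fun v : Fin n => (CMP_ext X v : ℝ) / D) = x := by
    funext v
    rw [CMP_ext_val, hX v]
    field_simp
  obtain ⟨d, hdD, hd0, hd1, hdstep⟩ := exists_potential G D hD (CMP_ext X) (by rw [hxX]; exact hx)
  have hXle : ∀ v, X v ≤ D := by
    intro v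
    have h1 := hX v
    have h2 := mul_le_mul_of_nonneg_left (hx.1 v).2 hDr.le
    rw [← h1, mul_one] at h2
    exact_mod_cast h2
  let rows : List Row := List.ofFn fun j : Fin n => (k j, L j, (l j).toNat, (-(l j)).toNat)
  have hmem : ∀ r ∈ rows, ∃ j, r = (k j, L j, (l j).toNat, (-(l j)).toNat) := by
    intro r hr
    obtain ⟨j, hj⟩ := (List.mem_ofFn' _ _).1 hr
    exact ⟨j, hj.symm⟩
  refine ⟨i₀.val, D, D, CMP_ext X, rows, d, ?_, hDn, hDn, ?_, ?_, ?_, ?_⟩
  · refine ⟨i₀.isLt, ?_, ?_, hD, ?_, ?_, ?_, ?_, hd0, hd1, hdstep⟩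
    · rw [CMP_ext_val]
      have : (0 : ℝ) < X i₀ := by rw [hX]; exact mul_pos hDr hi0
      exact_mod_cast this
    · rw [CMP_ext_val]
      have : (X i₀ : ℝ) < D := by
        rw [hX]
        have := mul_lt_mul_of_pos_left hi1 hDr
        rwa [mul_one] at this
      exact_mod_cast this
    · intro v hv
      have := hXle ⟨v, hv⟩
      rwa [← CMP_ext_val X ⟨v, hv⟩] at this
    · rintro u - v - ⟨hu, hv, huv⟩
      have h1 := hx.2.1 _ _ huv
      have h2 := mul_le_mul_of_nonneg_left h1 hDr.le
      rw [mul_add, ← hX, ← hX, mul_one] at h2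
      have h3 : X ⟨u, hu⟩ + X ⟨v, hv⟩ ≤ D := by exact_mod_cast h2
      rwa [← CMP_ext_val X ⟨u, hu⟩, ← CMP_ext_val X ⟨v, hv⟩] at h3
    · intro r hr
      obtain ⟨j, rfl⟩ := hmem r hr
      exact hrow j _ _
    · intro v hv
      have hc := hcomb ⟨v, hv⟩
      have hv' : ((⟨v, hv⟩ : Fin n) = i₀) ↔ v = i₀.val := by
        constructor
        · intro h; exact congrArg Fin.val h
        · intro h; exact Fin.ext h
      simp only [rows, List.map_ofFn, List.sum_ofFn, Function.comp]
      have hreal : (∑ j, ((((l j).toNat * (L j).count v : ℕ)) : ℝ)) =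
          (∑ j, ((((-(l j)).toNat * (L j).count v : ℕ)) : ℝ)) + if v = i₀.val then (D : ℝ) else 0 := by
        have h1 : ∀ j, ((((l j).toNat * (L j).count v : ℕ)) : ℝ) =
            (l j : ℝ) * a j ⟨v, hv⟩ + ((((-(l j)).toNat * (L j).count v : ℕ)) : ℝ) := by
          intro j
          have h2 : ((l j).toNat : ℝ) = (l j : ℝ) + ((-(l j)).toNat : ℝ) := by
            have h3 : ((l j).toNat : ℤ) = l j + ((-(l j)).toNat : ℤ) := by omega
            exact_mod_cast congrArg (fun z : ℤ => (z : ℝ)) h3
          have h4 := hcount j ⟨v, hv⟩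
          simp only at h4
          push_cast
          rw [← h4, h2]
          ring
        rw [Finset.sum_congr rfl fun j _ => h1 j, Finset.sum_add_distrib, hc, add_comm]
        congr 1
        simp only [hv']
      exact_mod_cast hreal
  · intro v
    unfold CMP_ext
    split_ifs with hv
    · exact (hXle _).trans hDn
    · exact Nat.zero_le _
  · simp [rows]
  · intro r hr
    obtain ⟨j, rfl⟩ := hmem r hr
    have := hl j
    refine ⟨hlen j, ?_, ?_⟩
    · show (l j).toNat ≤ n.factorial
      omega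
    · show (-(l j)).toNat ≤ n.factorial
      omega
  · intro r v e
    exact (hdD r v e).trans hDn

end Pool.Agent.H43.TP
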