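import Pool.Agent.H43.TPM.MDef
import Pool.Agent.H43.TP.SUB

/-!
# Soundness of certificates

PROOF. Let `x v = X v / D` (`D > 0` by `posX`, `ltX`).
(1) `x ∈ oddCyclePolytope G`. Box and edges: clear. Odd cycle `c : G.Walk r r`, vertex set `C`: by induction on a walk
`w : G.Walk v₀ v` starting at `v₀` (or by reversing): for all walks `w` from `v` to `v'`,
`d r v' ε' ≤ d r v ε + D * slack x w` where `ε' = ε + length w mod 2`, `ε, ε' ∈ {0, 1}` (`dstep`; here `D * slack` of a step
is `D - X v - X w`). For `c`: `D ≤ d r r 1 ≤ 0 + D * slack x c`, so `slack x c ≥ 1`. As in SUB, with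
`cycle_support_tail`, `slack x c = c.length - 2 * ∑_{C} x` and `C.card = c.length`. So the inequality holds.
(2) Suppose `TPerfect G`. Then `x` is in the convex hull of the incidence vectors of independent sets.
For a row `r` and `y : Fin n → ℝ` put `S_r(y) = (r.2.1.map y').sum` (`y' v = y ⟨v, _⟩`, `0` outside) and let
`g_r(y) = S_r(y)` (kind 0), `1 - S_r(y)` (kinds 1, 2), `(ℓ - 1)/2 - S_r(y)` (kind 3, `ℓ = r.2.1.length`). For the incidence
vector `y` of an independent set, `g_r(y)` is an integer `≥ 0` (kind 3: `2 * S_r(y) = ∑_i (y_i + y_{i+1}) ≤ ℓ`, cyclic sum,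
and `ℓ` is odd), and `g_r(x) = 0` by `RowOK`. `Φ(y) = ∑_r g_r(y)`. If `Φ(y) = 0` for an independent set, then
all `S_r(y) = S_r(x)`, and by `comb` `D' * y_{i₀} = ∑_r (lp - lm) S_r(y) = ∑_r (lp - lm) S_r(x) = D' * x_{i₀}`
(`∑_v y_v * count v = S_r(y)`), so `y_{i₀} = x_{i₀}`, but `0 < x_{i₀} < 1`. So `Φ(y) ≥ 1` for all incidence vectors,
hence on the convex hull (`convexHull_min`), but `Φ(x) = 0`. Contradiction.
-/

set_option autoImplicit false

namespace Pool.Agent.H43.TP

/-! ### Part 1: the point lies in `Q(G)` -/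

theorem csn_slack {V : Type} {G : SimpleGraph V} (x : V → ℝ) {i j : V} (w : G.Walk i j) :
    slack x w = w.length - 2 * (w.support.map x).sum + x i + x j := by
  induction w with
  | nil => simp [slack]; ring
  | @cons a b c h w ih =>
    rw [SimpleGraph.Walk.support_cons, List.map_cons, List.sum_cons, SimpleGraph.Walk.length_cons]
    push_cast
    simp only [slack]
    rw [ih]
    ring

theorem csn_slack_closed {V : Type} {G : SimpleGraph V} (x : V → ℝ) {i : V} (w : G.Walk i i) :
    slack x w = w.length - 2 * (w.support.tail.map x).sum := by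
  rw [csn_slack]
  have h : (w.support.map x).sum = x i + (w.support.tail.map x).sum := by
    conv_lhs => rw [← SimpleGraph.Walk.cons_tail_support w]
    rw [List.map_cons, List.sum_cons]
  rw [h]
  ring

theorem csn_walk {n : ℕ} {G : SimpleGraph (Fin n)} {D : ℕ} {X : ℕ → ℕ} (hD : 0 < D)
    {e : ℕ → ℕ → ℕ}
    (he : ∀ v w, nAdj G v w →
      e w 1 + (X v + X w) ≤ e v 0 + D ∧ e w 0 + (X v + X w) ≤ e v 1 + D)
    {i j : Fin n} (w : G.Walk i j) : ∀ ε : ℕ,
      (e j ((ε + w.length) % 2) : ℝ) ≤ e i (ε % 2) +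
        D * slack (fun v : Fin n => (X v : ℝ) / D) w := by
  have hD' : (D : ℝ) ≠ 0 := by positivity
  induction w with
  | nil => intro ε; simp [slack]
  | @cons a b c h w ih =>
    intro ε
    have h1 := ih (ε + 1)
    rw [SimpleGraph.Walk.length_cons]
    have h2 : ε + (w.length + 1) = ε + 1 + w.length := by ring
    rw [h2]
    have h3 := he a b ⟨a.2, b.2, h⟩
    have h4 : (D : ℝ) * slack (fun v : Fin n => (X v : ℝ) / D) (SimpleGraph.Walk.cons h w) =
        (D - X a - X b) + D * slack (fun v : Fin n => (X v : ℝ) / D) w := by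
      simp only [slack]
      field_simp
    rw [h4]
    have h5 : (e b ((ε + 1) % 2) : ℝ) ≤ e a (ε % 2) + (D - X a - X b) := by
      rcases Nat.mod_two_eq_zero_or_one ε with h6 | h6
      · have h7 : (ε + 1) % 2 = 1 := by omega
        rw [h6, h7]
        have h8 : ((e b 1 + (X a + X b) : ℕ) : ℝ) ≤ ((e a 0 + D : ℕ) : ℝ) := by
          exact_mod_cast h3.1
        push_cast at h8
        linarith
      · have h7 : (ε + 1) % 2 = 0 := by omega
        rw [h6, h7]
        have h8 : ((e b 0 + (X a + X b) : ℕ) : ℝ) ≤ ((e a 1 + D : ℕ) : ℝ) := by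
          exact_mod_cast h3.2
        push_cast at h8
        linarith
    linarith

theorem csn_mem {n : ℕ} (G : SimpleGraph (Fin n)) (i₀ D D' : ℕ) (X : ℕ → ℕ)
    (rows : List Row) (d : ℕ → ℕ → ℕ → ℕ) (h : CertOK n (nAdj G) i₀ D D' X rows d) :
    (fun v : Fin n => (X v : ℝ) / D) ∈ oddCyclePolytope G := by
  have hD : 0 < D := lt_of_le_of_lt (Nat.zero_le _) h.ltX
  have hD' : (0 : ℝ) < D := by exact_mod_cast hD
  refine ⟨fun v => ?_, fun u v huv => ?_, ?_⟩
  · have h1 := h.box v v.2
    constructor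
    · positivity
    · rw [div_le_one hD']
      exact_mod_cast h1
  · have h1 := h.edge u u.2 v v.2 ⟨u.2, v.2, huv⟩
    show (X u : ℝ) / D + (X v : ℝ) / D ≤ 1
    rw [← add_div, div_le_one hD']
    exact_mod_cast h1
  · rintro C ⟨r, c, hc, hodd, hC⟩
    obtain ⟨h1, h2, h3, h4⟩ := cycle_support_tail G C r c hc hC
    have h5 := csn_walk (G := G) (X := X) hD (e := d r) (fun v w hvw => by
      obtain ⟨hv, hw, -⟩ := id hvw
      exact h.dstep r r.2 v hv w hw hvw) c 0
    have h6 : (0 + c.length) % 2 = 1 := by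
      obtain ⟨k, hk⟩ := hodd
      omega
    rw [h6, h.d0 r r.2] at h5
    have h7 : (D : ℝ) ≤ d r r 1 := by exact_mod_cast h.d1 r r.2
    have h8 : (D : ℝ) * 1 ≤ D * slack (fun v : Fin n => (X v : ℝ) / D) c := by
      have h9 : ((0 : ℕ) : ℝ) = 0 := Nat.cast_zero
      rw [h9] at h5
      linarith
    have h9 : 1 ≤ slack (fun v : Fin n => (X v : ℝ) / D) c := le_of_mul_le_mul_left h8 hD'
    rw [csn_slack_closed] at h9
    have h10 : (c.support.tail.map (fun v : Fin n => (X v : ℝ) / D)).sum =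
        ∑ w ∈ C, (X w : ℝ) / D := by
      rw [← h2, List.sum_toFinset _ h1]
    rw [h10] at h9
    rw [h4]
    linarith

/-! ### Part 2: the point is not in the convex hull -/

/-- extension by zero -/
noncomputable def csnExt {n : ℕ} (y : Fin n → ℝ) (v : ℕ) : ℝ := if h : v < n then y ⟨v, h⟩ else 0

/-- value of a row -/
noncomputable def csnS {n : ℕ} (r : Row) (y : Fin n → ℝ) : ℝ := (r.2.1.map (csnExt y)).sum

/-- slack of a row -/
noncomputable def csnG {n : ℕ} (r : Row) (y : Fin n → ℝ) : ℝ :=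
  if r.1 = 0 then csnS r y else
    if r.1 = 3 then ((r.2.1.length : ℝ) - 1) / 2 - csnS r y else 1 - csnS r y

/-- sum of the slacks -/
noncomputable def csnPhi {n : ℕ} (rows : List Row) (y : Fin n → ℝ) : ℝ :=
  (rows.map fun r => csnG r y).sum

theorem csnExt_affine {n : ℕ} (y z : Fin n → ℝ) (a b : ℝ) (v : ℕ) :
    csnExt (a • y + b • z) v = a * csnExt y v + b * csnExt z v := by
  unfold csnExt
  split_ifs
  · simp
  · simp

theorem csnS_affine {n : ℕ} (r : Row) (y z : Fin n → ℝ) (a b : ℝ) :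
    csnS r (a • y + b • z) = a * csnS r y + b * csnS r z := by
  unfold csnS
  induction r.2.1 with
  | nil => simp
  | cons v l ih =>
    rw [List.map_cons, List.sum_cons, List.map_cons, List.sum_cons, List.map_cons, List.sum_cons,
      ih, csnExt_affine]
    ring

theorem csnG_affine {n : ℕ} (r : Row) (y z : Fin n → ℝ) {a b : ℝ} (hab : a + b = 1) :
    csnG r (a • y + b • z) = a * csnG r y + b * csnG r z := by
  unfold csnG
  split_ifs
  · exact csnS_affine r y z a b
  · rw [csnS_affine]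
    have : b = 1 - a := by linarith
    rw [this]
    ring
  · rw [csnS_affine]
    have : b = 1 - a := by linarith
    rw [this]
    ring

theorem csnPhi_affine {n : ℕ} (rows : List Row) (y z : Fin n → ℝ) {a b : ℝ} (hab : a + b = 1) :
    csnPhi rows (a • y + b • z) = a * csnPhi rows y + b * csnPhi rows z := by
  unfold csnPhi
  induction rows with
  | nil => simp
  | cons r l ih =>
    rw [List.map_cons, List.sum_cons, List.map_cons, List.sum_cons, List.map_cons, List.sum_cons,
      ih, csnG_affine r y z hab]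
    ring

theorem csnPhi_convex {n : ℕ} (rows : List Row) :
    Convex ℝ {y : Fin n → ℝ | 1 ≤ csnPhi rows y} := by
  intro y hy z hz a b ha hb hab
  show 1 ≤ csnPhi rows (a • y + b • z)
  rw [csnPhi_affine rows y z hab]
  have h1 : a * 1 ≤ a * csnPhi rows y := mul_le_mul_of_nonneg_left hy ha
  have h2 : b * 1 ≤ b * csnPhi rows z := mul_le_mul_of_nonneg_left hz hb
  linarith

theorem csn_sum_count {n : ℕ} (Y : ℕ → ℝ) (l : List ℕ) (hl : ∀ v ∈ l, v < n) :
    (l.map Y).sum = ∑ v ∈ Finset.range n, (l.count v : ℝ) * Y v := by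
  induction l with
  | nil => simp
  | cons a l ih =>
    rw [List.map_cons, List.sum_cons, ih fun v hv => hl v (List.mem_cons_of_mem _ hv)]
    have h1 : ∀ v, (((a :: l).count v : ℕ) : ℝ) * Y v =
        (l.count v : ℝ) * Y v + if v = a then Y v else 0 := by
      intro v
      rw [List.count_cons]
      by_cases h : v = a
      · subst h
        simp
        ring
      · have h' : ¬ a = v := fun h2 => h h2.symm
        simp [h, h']
    rw [Finset.sum_congr rfl fun v _ => h1 v, Finset.sum_add_distrib, Finset.sum_ite_eq',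
      if_pos (Finset.mem_range.2 (hl a List.mem_cons_self))]
    ring

theorem csn_exchange {n : ℕ} (Y : ℕ → ℝ) (rows : List Row) (c : Row → ℕ)
    (hr : ∀ r ∈ rows, ∀ v ∈ r.2.1, v < n) :
    ∑ v ∈ Finset.range n, ((rows.map (fun r => c r * r.2.1.count v)).sum : ℕ) * Y v =
      (rows.map fun r => (c r : ℝ) * (r.2.1.map Y).sum).sum := by
  induction rows with
  | nil => simp
  | cons r l ih =>
    rw [List.map_cons, List.sum_cons, ← ih fun r' hr' => hr r' (List.mem_cons_of_mem _ hr'),
      csn_sum_count Y r.2.1 (hr r List.mem_cons_self), Finset.mul_sum, ← Finset.sum_add_distrib]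
    refine Finset.sum_congr rfl fun v _ => ?_
    rw [List.map_cons, List.sum_cons]
    push_cast
    ring

theorem csn_comb {n : ℕ} {G : SimpleGraph (Fin n)} {i₀ D D' : ℕ} {X : ℕ → ℕ}
    {rows : List Row} {d : ℕ → ℕ → ℕ → ℕ} (h : CertOK n (nAdj G) i₀ D D' X rows d) (Y : ℕ → ℝ) :
    (rows.map fun r => (r.2.2.1 : ℝ) * (r.2.1.map Y).sum).sum =
      (rows.map fun r => (r.2.2.2 : ℝ) * (r.2.1.map Y).sum).sum + D' * Y i₀ := by
  have hr : ∀ r ∈ rows, ∀ v ∈ r.2.1, v < n := fun r hr => (h.rowsOK r hr).1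
  rw [← csn_exchange Y rows (fun r => r.2.2.1) hr, ← csn_exchange Y rows (fun r => r.2.2.2) hr]
  have h1 : ∀ v ∈ Finset.range n, ((rows.map (fun r => r.2.2.1 * r.2.1.count v)).sum : ℕ) * Y v =
      ((rows.map (fun r => r.2.2.2 * r.2.1.count v)).sum : ℕ) * Y v +
        if v = i₀ then D' * Y v else 0 := by
    intro v hv
    rw [h.comb v (Finset.mem_range.1 hv)]
    push_cast
    split_ifs
    · ring
    · ring
  rw [Finset.sum_congr rfl h1, Finset.sum_add_distrib, Finset.sum_ite_eq',
    if_pos (Finset.mem_range.2 h.i₀n)]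

theorem csn_sum_getD (χ : ℕ → ℕ) (l : List ℕ) :
    (l.map χ).sum = ∑ i ∈ Finset.range l.length, χ (l.getD i 0) := by
  induction l with
  | nil => simp
  | cons a l ih =>
    rw [List.map_cons, List.sum_cons, List.length_cons, Finset.sum_range_succ', ih]
    simp only [List.getD_cons_succ, List.getD_cons_zero]
    ring

theorem csn_cyclic (f : ℕ → ℕ) {l : ℕ} (hl : 0 < l) :
    ∑ i ∈ Finset.range l, f ((i + 1) % l) = ∑ i ∈ Finset.range l, f i := by
  obtain ⟨m, rfl⟩ : ∃ m, l = m + 1 := ⟨l - 1, by omega⟩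
  rw [Finset.sum_range_succ, Finset.sum_range_succ', Nat.mod_self]
  congr 1
  refine Finset.sum_congr rfl fun i hi => ?_
  rw [Nat.mod_eq_of_lt]
  have := Finset.mem_range.1 hi
  omega

open Classical in
/-- the indicator on the natural numbers -/
noncomputable def csnChi {n : ℕ} (S : Set (Fin n)) (v : ℕ) : ℕ :=
  if ∃ h : v < n, (⟨v, h⟩ : Fin n) ∈ S then 1 else 0

theorem csnChi_le {n : ℕ} (S : Set (Fin n)) (v : ℕ) : csnChi S v ≤ 1 := by
  unfold csnChi
  split_ifs <;> omega

theorem csnChi_ext {n : ℕ} (S : Set (Fin n)) (v : ℕ) :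
    csnExt (S.indicator 1) v = (csnChi S v : ℝ) := by
  classical
  unfold csnExt csnChi
  by_cases h : v < n
  · rw [dif_pos h, Set.indicator_apply]
    by_cases h1 : (⟨v, h⟩ : Fin n) ∈ S
    · rw [if_pos h1, if_pos ⟨h, h1⟩]
      simp
    · rw [if_neg h1, if_neg (fun ⟨_, h3⟩ => h1 h3)]
      simp
  · rw [dif_neg h, if_neg (fun ⟨h2, _⟩ => h h2)]
    simp

theorem csnS_nat {n : ℕ} (S : Set (Fin n)) (r : Row) :
    csnS r (S.indicator 1) = ((r.2.1.map (csnChi S)).sum : ℕ) := by
  unfold csnS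
  induction r.2.1 with
  | nil => simp
  | cons v l ih =>
    rw [List.map_cons, List.sum_cons, List.map_cons, List.sum_cons, ih, csnChi_ext]
    push_cast
    rfl

theorem csn_edge {n : ℕ} {G : SimpleGraph (Fin n)} {S : Set (Fin n)} (hS : G.IsIndepSet S)
    {v w : ℕ} (h : nAdj G v w) : csnChi S v + csnChi S w ≤ 1 := by
  obtain ⟨hv, hw, h1⟩ := h
  unfold csnChi
  by_cases h2 : ∃ h : v < n, (⟨v, h⟩ : Fin n) ∈ S
  · by_cases h3 : ∃ h : w < n, (⟨w, h⟩ : Fin n) ∈ S
    · obtain ⟨_, h2⟩ := h2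
      obtain ⟨_, h3⟩ := h3
      exact absurd h1 (hS h2 h3 h1.ne)
    · rw [if_neg h3]
      split_ifs <;> omega
  · rw [if_neg h2]
    split_ifs <;> omega

theorem csnG_nat {n : ℕ} {G : SimpleGraph (Fin n)} {D : ℕ} {X : ℕ → ℕ} {S : Set (Fin n)}
    (hS : G.IsIndepSet S) {r : Row} (hr : RowOK n (nAdj G) D X r) :
    ∃ k : ℕ, csnG r (S.indicator 1) = k := by
  obtain ⟨-, h | h | h | h⟩ := hr
  · obtain ⟨h1, -, -⟩ := h
    refine ⟨(r.2.1.map (csnChi S)).sum, ?_⟩
    unfold csnG
    rw [if_pos h1, csnS_nat]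
  · obtain ⟨h1, h2, -⟩ := h
    have h3 : (r.2.1.map (csnChi S)).sum ≤ 1 := by
      obtain ⟨v, hv⟩ := List.length_eq_one_iff.1 h2
      rw [hv]
      simpa using csnChi_le S v
    refine ⟨1 - (r.2.1.map (csnChi S)).sum, ?_⟩
    unfold csnG
    rw [if_neg (by omega), if_neg (by omega), csnS_nat, Nat.cast_sub h3, Nat.cast_one]
  · obtain ⟨h1, h2, h3, -⟩ := h
    have h4 : (r.2.1.map (csnChi S)).sum ≤ 1 := by
      rw [csn_sum_getD, h2, Finset.sum_range_succ, Finset.sum_range_one]
      exact csn_edge hS h3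
    refine ⟨1 - (r.2.1.map (csnChi S)).sum, ?_⟩
    unfold csnG
    rw [if_neg (by omega), if_neg (by omega), csnS_nat, Nat.cast_sub h4, Nat.cast_one]
  · obtain ⟨h1, h2, h3, -⟩ := h
    obtain ⟨k, hk⟩ := h2
    have h4 : 2 * (r.2.1.map (csnChi S)).sum ≤ r.2.1.length := by
      have h5 : 2 * (r.2.1.map (csnChi S)).sum =
          ∑ i ∈ Finset.range r.2.1.length, (csnChi S (r.2.1.getD i 0) +
            csnChi S (r.2.1.getD ((i + 1) % r.2.1.length) 0)) := by
        rw [Finset.sum_add_distrib, csn_cyclic (fun i => csnChi S (r.2.1.getD i 0)) (by omega),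
          ← csn_sum_getD]
        ring
      rw [h5]
      have h6 := Finset.sum_le_sum (f := fun i => csnChi S (r.2.1.getD i 0) +
            csnChi S (r.2.1.getD ((i + 1) % r.2.1.length) 0)) (g := fun _ => 1)
            (s := Finset.range r.2.1.length)
            fun i hi => csn_edge hS (h3 i (Finset.mem_range.1 hi))
      simpa using h6
    refine ⟨k - (r.2.1.map (csnChi S)).sum, ?_⟩
    unfold csnG
    rw [if_neg (by omega), if_pos h1, csnS_nat, Nat.cast_sub (by omega), hk]
    push_cast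
    ring

theorem csnS_point {n : ℕ} {D : ℕ} {X : ℕ → ℕ} {r : Row} (hr : ∀ v ∈ r.2.1, v < n) :
    csnS r (fun v : Fin n => (X v : ℝ) / D) = ((r.2.1.map X).sum : ℕ) / D := by
  unfold csnS
  revert hr
  induction r.2.1 with
  | nil => simp
  | cons v l ih =>
    intro hr
    rw [List.map_cons, List.sum_cons, List.map_cons, List.sum_cons,
      ih fun w hw => hr w (List.mem_cons_of_mem _ hw)]
    have h1 : csnExt (fun v : Fin n => (X v : ℝ) / D) v = (X v : ℝ) / D := by
      unfold csnExt
      rw [dif_pos (hr v List.mem_cons_self)]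
    rw [h1]
    push_cast
    ring

theorem csnG_point {n : ℕ} {adj : ℕ → ℕ → Prop} {D : ℕ} (hD : 0 < D) {X : ℕ → ℕ} {r : Row}
    (hr : RowOK n adj D X r) : csnG r (fun v : Fin n => (X v : ℝ) / D) = 0 := by
  have hD' : (D : ℝ) ≠ 0 := by positivity
  obtain ⟨h0, h | h | h | h⟩ := hr
  · obtain ⟨h1, -, h2⟩ := h
    unfold csnG
    rw [if_pos h1, csnS_point h0, h2]
    simp
  · obtain ⟨h1, -, h2⟩ := h
    unfold csnG
    rw [if_neg (by omega), if_neg (by omega), csnS_point h0, h2, div_self hD', sub_self]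
  · obtain ⟨h1, -, -, h2⟩ := h
    unfold csnG
    rw [if_neg (by omega), if_neg (by omega), csnS_point h0, h2, div_self hD', sub_self]
  · obtain ⟨h1, -, -, h2⟩ := h
    unfold csnG
    rw [if_neg (by omega), if_pos h1, csnS_point h0]
    have h3 : (2 : ℝ) * ((r.2.1.map X).sum : ℕ) + D = r.2.1.length * D := by exact_mod_cast h2
    field_simp
    linarith

theorem not_tperfect_of_cert {n : ℕ} (G : SimpleGraph (Fin n)) (i₀ D D' : ℕ) (X : ℕ → ℕ)
    (rows : List Row) (d : ℕ → ℕ → ℕ → ℕ) (h : CertOK n (nAdj G) i₀ D D' X rows d) :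
    ¬ TPerfect G := by
  intro hperf
  have hD : 0 < D := lt_of_le_of_lt (Nat.zero_le _) h.ltX
  have hD' : (0 : ℝ) < D := by exact_mod_cast hD
  have hx := csn_mem G i₀ D D' X rows d h
  rw [← hperf] at hx
  have hsub : stablePolytope G ⊆ {y | 1 ≤ csnPhi rows y} := by
    refine convexHull_min ?_ (csnPhi_convex rows)
    rintro y ⟨S, hS, rfl⟩
    show 1 ≤ csnPhi rows (S.indicator 1)
    have hnn : ∀ z ∈ rows.map fun r => csnG r (S.indicator (1 : Fin n → ℝ)), 0 ≤ z := by
      intro z hz
      obtain ⟨r, hr, rfl⟩ := List.mem_map.1 hz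
      obtain ⟨k, hk⟩ := csnG_nat hS (h.rowsOK r hr)
      rw [hk]
      positivity
    by_cases hall : ∀ r ∈ rows, csnG r (S.indicator (1 : Fin n → ℝ)) = 0
    · exfalso
      have h1 : ∀ r ∈ rows, (r.2.1.map (csnExt (S.indicator (1 : Fin n → ℝ)))).sum =
          (r.2.1.map (csnExt fun v : Fin n => (X v : ℝ) / D)).sum := by
        intro r hr
        have h2 := hall r hr
        have h3 := csnG_point hD (h.rowsOK r hr)
        unfold csnG at h2 h3
        show csnS r _ = csnS r _
        split_ifs at h2 h3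
        · rw [h2, h3]
        · linarith
        · linarith
      have h2 := csn_comb h (csnExt (S.indicator (1 : Fin n → ℝ)))
      have h3 := csn_comb h (csnExt fun v : Fin n => (X v : ℝ) / D)
      have h4 : ∀ c : Row → ℝ, (rows.map fun r => c r *
          (r.2.1.map (csnExt (S.indicator (1 : Fin n → ℝ)))).sum) =
          rows.map fun r => c r *
            (r.2.1.map (csnExt fun v : Fin n => (X v : ℝ) / D)).sum := by
        intro c
        refine List.map_congr_left fun r hr => ?_
        rw [h1 r hr]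
      rw [h4 fun r => (r.2.2.1 : ℝ), h4 fun r => (r.2.2.2 : ℝ)] at h2
      have h5 : (D' : ℝ) * csnExt (S.indicator (1 : Fin n → ℝ)) i₀ =
          D' * csnExt (fun v : Fin n => (X v : ℝ) / D) i₀ := by linarith
      have h6 : (D' : ℝ) ≠ 0 := by
        have := h.posD'
        positivity
      have h7 := mul_left_cancel₀ h6 h5
      rw [csnChi_ext] at h7
      unfold csnExt at h7
      rw [dif_pos h.i₀n] at h7
      have h8 : (0 : ℝ) < (X i₀ : ℝ) / D := by
        have := h.posX
        positivity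
      have h9 : (X i₀ : ℝ) / D < 1 := by
        rw [div_lt_one hD']
        exact_mod_cast h.ltX
      have h10 : (csnChi S i₀ : ℝ) = (X i₀ : ℝ) / D := h7
      rw [← h10] at h8 h9
      have h11 : 0 < csnChi S i₀ := by exact_mod_cast h8
      have h12 : csnChi S i₀ < 1 := by exact_mod_cast h9
      omega
    · push Not at hall
      obtain ⟨r, hr, hne⟩ := hall
      obtain ⟨k, hk⟩ := csnG_nat hS (h.rowsOK r hr)
      have h1 : 1 ≤ csnG r (S.indicator (1 : Fin n → ℝ)) := by
        rw [hk] at hne ⊢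
        have h2 : k ≠ 0 := fun h3 => hne (by rw [h3]; simp)
        have h3 : 1 ≤ k := Nat.one_le_iff_ne_zero.2 h2
        exact_mod_cast h3
      exact h1.trans (List.single_le_sum hnn _ (List.mem_map.2 ⟨r, hr, rfl⟩))
  have h1 : 1 ≤ csnPhi rows (fun v : Fin n => (X v : ℝ) / D) := hsub hx
  have h2 : csnPhi rows (fun v : Fin n => (X v : ℝ) / D) = 0 := by
    unfold csnPhi
    have h3 : (rows.map fun r => csnG r (fun v : Fin n => (X v : ℝ) / D)) =
        rows.map fun _ => (0 : ℝ) :=
      List.map_congr_left fun r hr => csnG_point hD (h.rowsOK r hr)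
    rw [h3]
    simp
  rw [h2] at h1
  linarith

end Pool.Agent.H43.TP
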