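import Pool.Agent.H43.TPM.VDef
import Pool.Agent.H43.TPM.BIN

/-!
# The verifier checks `CertOK`

Unfold `chk`, `rowB`; `simp` with `List.all_eq_true`, `Bool.and_eq_true`, `Bool.or_eq_true`, `decide_eq_true_eq`, `List.mem_range`, `leB_iff`,
`eqB2_iff`, `val_addB`, `val_sumB`, `oddB_iff`, `val [] = 0`. For `rowB`: `getN l i = l.getD i 0`, and for `i < l.length`
`(i + 1) % l.length = if i + 1 < l.length then i + 1 else 0`. For `comb`: the sum over
`flatMap (filter (· = v)).map (fun _ => c)` is `∑ c * count v`.
-/

set_option autoImplicit false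

namespace Pool.Agent.H43.TP

open Pool.Agent.H83

/-- The row given by a tree. -/
def rowOf (r : T) : Row := (rKind r, rVs r, val (rP r), val (rM r))

theorem VCO_getN (l : List ℕ) (i : ℕ) : getN l i = l.getD i 0 := by
  unfold getN
  rw [List.headD_eq_head?_getD, List.head?_drop, List.getD_eq_getElem?_getD]

theorem VCO_val_nil : val [] = 0 := rfl

theorem VCO_mod {i l : ℕ} (h : i < l) : (i + 1) % l = if i + 1 < l then i + 1 else 0 := by
  split_ifs with h1
  · exact Nat.mod_eq_of_lt h1
  · have : i + 1 = l := by omega
    rw [this, Nat.mod_self]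

theorem VCO_sum (l : List ℕ) (f : ℕ → List Bool) :
    val (sumB (l.map (fun v => f v))) = (l.map (fun v => val (f v))).sum := by
  rw [val_sumB, List.map_map]
  rfl

theorem VCO_const (l : List ℕ) (c : List Bool) :
    val (sumB (l.map (fun _ => c))) = l.length * val c := by
  rw [VCO_sum l (fun _ => c)]
  induction l with
  | nil => simp
  | cons a l ih => simp only [List.map_cons, List.sum_cons, ih, List.length_cons]; ring

theorem VCO_filter (l : List ℕ) (v : ℕ) (c : List Bool) :
    (((l.filter (fun u => decide (u = v))).map (fun _ => c)).map val).sum = val c * l.count v := by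
  induction l with
  | nil => simp
  | cons a l ih =>
    by_cases h : a = v
    · subst h
      rw [List.filter_cons_of_pos (by simp), List.map_cons, List.map_cons, List.sum_cons, ih,
        List.count_cons_self]
      ring
    · rw [List.filter_cons_of_neg (by simpa using h), ih, List.count_cons_of_ne h]

theorem VCO_flat (rows : List T) (v : ℕ) (c : T → List Bool) :
    ((rows.flatMap (fun r => ((rVs r).filter (fun u => decide (u = v))).map (fun _ => c r))).map
      val).sum = (rows.map (fun r => val (c r) * (rVs r).count v)).sum := by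
  induction rows with
  | nil => simp
  | cons a l ih =>
    rw [List.flatMap_cons, List.map_append, List.sum_append, ih, VCO_filter, List.map_cons,
      List.sum_cons]

theorem VCO_combP (t : T) (v : ℕ) : val (combP t v) =
    (((cRows t).map rowOf).map (fun r => r.2.2.1 * r.2.1.count v)).sum := by
  unfold combP
  rw [val_sumB, VCO_flat, List.map_map]
  rfl

theorem VCO_combM (t : T) (v : ℕ) : val (combM t v) =
    (((cRows t).map rowOf).map (fun r => r.2.2.2 * r.2.1.count v)).sum +
      if v = ci t then val (cD' t) else 0 := by
  unfold combM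
  rw [val_sumB, List.map_append, List.sum_append, VCO_flat, List.map_map, add_comm]
  congr 1
  split_ifs
  · simp
  · simp

theorem VCO_row (w : List Bool) (n : ℕ) (t r : T) : rowB w n t r = true ↔
    RowOK n (fun i j => wAdj w n i j = true) (val (cD t)) (fun v => val (cX t v)) (rowOf r) := by
  unfold rowB RowOK rowOf
  simp only [Bool.and_eq_true, Bool.or_eq_true, decide_eq_true_eq, List.all_eq_true, leB_iff, eqB2_iff,
    VCO_sum, VCO_val_nil, Nat.le_zero, oddB_iff, List.mem_range]
  refine and_congr Iff.rfl (or_congr Iff.rfl (or_congr Iff.rfl (or_congr ?_ ?_)))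
  · simp only [VCO_getN]
  · refine and_congr Iff.rfl (and_congr Iff.rfl (and_congr ?_ ?_))
    · refine forall_congr' fun i => ?_
      refine forall_congr' fun hi => ?_
      rw [VCO_mod hi, VCO_getN, VCO_getN]
    · rw [val_sumB]
      simp only [List.map_cons, List.map_nil, List.sum_cons, List.sum_nil, VCO_sum, add_zero]
      have hc := VCO_const (rVs r) (cD t)
      rw [VCO_sum (rVs r) (fun _ => cD t)] at hc
      rw [hc]
      constructor
      · intro h; rw [← h]; ring
      · intro h; rw [← h]; ring

theorem chk_iff (w : List Bool) (n : ℕ) (t : T) : chk w n t = true ↔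
    CertOK n (fun i j => wAdj w n i j = true) (ci t) (val (cD t)) (val (cD' t))
      (fun v => val (cX t v)) ((cRows t).map rowOf) (fun r v e => val (cd t r v e)) := by
  unfold chk
  simp only [Bool.and_eq_true, Bool.or_eq_true, decide_eq_true_eq, List.all_eq_true, leB_iff, eqB2_iff,
    VCO_val_nil, Nat.le_zero, List.mem_range, VCO_row, Bool.not_eq_true', VCO_combP, VCO_combM,
    val_addB]
  have hneg : ∀ a b : List Bool, leB a b = false ↔ ¬ val a ≤ val b := by
    intro a b
    rw [← leB_iff, Bool.not_eq_true]
  simp only [hneg, VCO_val_nil, Nat.le_zero, not_le]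
  have himp : ∀ (b : Bool) (p : Prop), (b = false ∨ p) ↔ (b = true → p) := by
    intro b p
    cases b <;> simp
  simp only [himp]
  constructor
  · rintro ⟨h1, h2, h3, h4, h5, h6, h7, h8, h9, h10⟩
    exact {
      i₀n := h1
      posX := Nat.pos_of_ne_zero h2
      ltX := h3
      posD' := Nat.pos_of_ne_zero h4
      box := h5
      edge := h6
      rowsOK := by
        intro r hr
        obtain ⟨r', hr', rfl⟩ := List.mem_map.mp hr
        exact h7 r' hr'
      comb := h8
      d0 := fun r hr => (h9 r hr).1
      d1 := fun r hr => (h9 r hr).2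
      dstep := h10 }
  · intro h
    exact ⟨h.i₀n, h.posX.ne', h.ltX, h.posD'.ne', h.box, h.edge,
      fun r hr => h.rowsOK _ (List.mem_map_of_mem hr), h.comb, fun r hr => ⟨h.d0 r hr, h.d1 r hr⟩, h.dstep⟩

end Pool.Agent.H43.TP
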