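import Pool.Agent.H43.TPM.VDef
import Pool.Agent.H43.TP.INJ

/-!
# Recognition of adjacency words

`(adjWord G).length = n * n`, `rootOf w = n` if `w.length = n * n` (the list of the `k ≤ w.length` with `k * k = w.length` is
`[n]`), and the entry number `i * n + j` of `adjWord G` is `decide (G.Adj i j)` (`i, j < n`) (cf. `INJ.lean`;
`CSPRed.finRange_flatMap` in `Pool/Agent/H83/RBGadget.lean`, `RBMember.getElem?_flatMap_const`). Conversely, if `goodW w`, define
`G.Adj i j := wAdj w n i j = true`, `n = rootOf w`; `w = adjWord G` by comparing the entries.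
-/

set_option autoImplicit false

namespace Pool.Agent.H43.TP

open Pool.Agent.H83

theorem length_adjWord {n : ℕ} (G : SimpleGraph (Fin n)) : (adjWord G).length = n * n := by
  unfold adjWord
  rw [List.length_flatMap]
  simp

theorem wrd_headD_filter (p : ℕ → Bool) (d : ℕ) (l : List ℕ) (h : ∃ k ∈ l, p k = true) :
    p ((l.filter p).headD d) = true := by
  obtain ⟨k, hk, hpk⟩ := h
  have hk' : k ∈ l.filter p := List.mem_filter.2 ⟨hk, hpk⟩
  cases hl : l.filter p with
  | nil => rw [hl] at hk'; exact absurd hk' (by simp)
  | cons a m =>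
    have ha : a ∈ l.filter p := by rw [hl]; exact List.mem_cons_self
    exact (List.mem_filter.1 ha).2

theorem wrd_rootOf_of_length (w : List Bool) (n : ℕ) (h : w.length = n * n) : rootOf w = n := by
  have h1 : decide (rootOf w * rootOf w = w.length) = true := by
    unfold rootOf
    refine wrd_headD_filter (fun k => decide (k * k = w.length)) 0 (List.range (w.length + 1)) ⟨n, ?_, ?_⟩
    · rw [List.mem_range, h]
      rcases Nat.eq_zero_or_pos n with h0 | h0
      · omega
      · have := Nat.le_mul_of_pos_left n h0
        omega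
    · exact decide_eq_true h.symm
  have h2 : rootOf w * rootOf w = n * n := by rw [of_decide_eq_true h1, h]
  exact Nat.mul_self_inj.1 h2

theorem rootOf_adjWord {n : ℕ} (G : SimpleGraph (Fin n)) : rootOf (adjWord G) = n :=
  wrd_rootOf_of_length _ _ (length_adjWord G)

theorem wrd_getElem?_flatMap {ι : Type} (f : ι → List Bool) (c : ℕ) (hf : ∀ i, (f i).length = c)
    (l : List ι) : ∀ (i : ℕ) (hi : i < l.length) (j : ℕ), j < c →
      (l.flatMap f)[i * c + j]? = (f l[i])[j]? := by
  induction l with
  | nil => intro i hi; simp at hi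
  | cons x l ih =>
    intro i hi j hj
    rw [List.flatMap_cons]
    cases i with
    | zero =>
      rw [Nat.zero_mul, Nat.zero_add, List.getElem?_append_left (by rw [hf]; exact hj)]
      rfl
    | succ i =>
      have e0 : (i + 1) * c + j = c + (i * c + j) := by
        rw [Nat.add_mul, Nat.one_mul]; omega
      rw [List.getElem?_append_right (by rw [hf, e0]; omega)]
      rw [hf]
      have e : (i + 1) * c + j - c = i * c + j := by
        rw [e0]; omega
      rw [e]
      exact ih i (by simpa using hi) j hj

theorem wrd_getElem? {n : ℕ} (G : SimpleGraph (Fin n)) (i j : Fin n) :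
    ∀ (d : Decidable (G.Adj i j)), (adjWord G)[i.val * n + j.val]? = some (@decide (G.Adj i j) d) := by
  classical
  intro d
  unfold adjWord
  rw [wrd_getElem?_flatMap _ n (fun i => by simp) _ i.val (by simp) j.val j.isLt]
  simp only [List.getElem_finRange, Fin.cast_mk, Fin.eta, List.getElem?_map]
  have hj : (List.finRange n)[j.val]? = some j := by
    rw [List.getElem?_eq_getElem (by simp)]
    simp
  rw [hj]
  simp only [Option.map_some, Option.some.injEq]
  exact decide_eq_decide.2 Iff.rfl

theorem wrd_getElem?' {n : ℕ} (G : SimpleGraph (Fin n)) (i j : Fin n) :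
    ∃ b : Bool, (adjWord G)[i.val * n + j.val]? = some b ∧ (b = true ↔ G.Adj i j) := by
  classical
  exact ⟨_, wrd_getElem? G i j (Classical.dec _), decide_eq_true_iff⟩

theorem wrd_headD_drop (w : List Bool) (k : ℕ) : (w.drop k).headD false = (w[k]?).getD false := by
  rw [← List.getD_eq_getElem?_getD]
  induction w generalizing k with
  | nil => simp
  | cons a w ih =>
    cases k with
    | zero => rfl
    | succ k => simp

theorem wAdj_adjWord {n : ℕ} (G : SimpleGraph (Fin n)) (i j : ℕ) (hi : i < n) (hj : j < n) :
    wAdj (adjWord G) n i j = true ↔ nAdj G i j := by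
  classical
  unfold wAdj
  rw [wrd_headD_drop, wrd_getElem? G ⟨i, hi⟩ ⟨j, hj⟩ (Classical.dec _)]
  simp only [Option.getD_some, decide_eq_true_eq]
  constructor
  · intro h
    exact ⟨hi, hj, h⟩
  · rintro ⟨_, _, h⟩
    exact h

theorem goodW_iff (w : List Bool) :
    goodW w = true ↔ ∃ (n : ℕ) (G : SimpleGraph (Fin n)), w = adjWord G := by
  classical
  constructor
  · intro h
    unfold goodW at h
    simp only [Bool.and_eq_true, decide_eq_true_eq, List.all_eq_true, List.mem_range, Bool.not_eq_true',
      Bool.or_eq_true] at h
    obtain ⟨h1, h2, h3⟩ := h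
    let G : SimpleGraph (Fin (rootOf w)) :=
      { Adj := fun i j => wAdj w (rootOf w) i.val j.val = true
        symm := ⟨by
          intro i j hij
          rcases h3 i.val i.isLt j.val j.isLt with h4 | h4
          · rw [h4] at hij; exact absurd hij (by simp)
          · exact h4⟩
        loopless := ⟨by
          intro i hi
          rw [h2 i.val i.isLt] at hi
          exact absurd hi (by simp)⟩ }
    refine ⟨rootOf w, G, ?_⟩
    apply List.ext_getElem?
    intro k
    by_cases hk : k < rootOf w * rootOf w
    · have hn : 0 < rootOf w := by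
        rcases Nat.eq_zero_or_pos (rootOf w) with h0 | h0
        · rw [h0] at hk; simp at hk
        · exact h0
      have hi : k / rootOf w < rootOf w := Nat.div_lt_of_lt_mul hk
      have hj : k % rootOf w < rootOf w := Nat.mod_lt _ hn
      have hke : k / rootOf w * rootOf w + k % rootOf w = k := Nat.div_add_mod' k (rootOf w)
      obtain ⟨b, h4, hb⟩ := wrd_getElem?' G ⟨k / rootOf w, hi⟩ ⟨k % rootOf w, hj⟩
      simp only at h4
      rw [hke] at h4
      rw [h4, List.getElem?_eq_getElem (by omega)]
      have h5 : wAdj w (rootOf w) (k / rootOf w) (k % rootOf w) = w[k] := by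
        unfold wAdj
        rw [hke, wrd_headD_drop, List.getElem?_eq_getElem (by omega), Option.getD_some]
      refine Option.some_inj.2 (Bool.eq_iff_iff.2 ?_)
      rw [← h5]
      exact hb.symm
    · rw [List.getElem?_eq_none (by omega), List.getElem?_eq_none (by rw [length_adjWord]; omega)]
  · rintro ⟨n, G, rfl⟩
    unfold goodW
    simp only [rootOf_adjWord, length_adjWord, Bool.and_eq_true, decide_eq_true_eq, List.all_eq_true,
      List.mem_range, Bool.not_eq_true', Bool.or_eq_true, true_and]
    refine ⟨?_, ?_⟩
    · intro i hi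
      rw [Bool.eq_false_iff]
      intro h
      obtain ⟨_, _, h'⟩ := (wAdj_adjWord G i i hi hi).1 h
      exact G.irrefl h'
    · intro i hi j hj
      rcases Bool.eq_false_or_eq_true (wAdj (adjWord G) n i j) with h | h
      · right
        obtain ⟨_, _, h'⟩ := (wAdj_adjWord G i j hi hj).1 h
        exact (wAdj_adjWord G j i hj hi).2 ⟨hj, hi, h'.symm⟩
      · left; exact h

end Pool.Agent.H43.TP
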