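import Pool.Agent.H43.TPM.NPT
import Pool.Agent.H43.TPM.VPO
import Pool.Agent.H43.TPM.VCO
import Pool.Agent.H43.TPM.WRD
import Pool.Agent.H43.TPM.BLD
import Pool.Agent.H43.TPM.CGR
import Pool.Agent.H43.TPM.CSN
import Pool.Agent.H43.TPM.CMP

/-!
# T-PERF is in coNP
-/

set_option autoImplicit false

namespace Pool.Agent.H43.TP

open Pool.Agent.H83

theorem factorial_lt (n : ℕ) : n.factorial < 2 ^ (n * n + 1) := by
  have h1 : n.factorial ≤ n ^ n := Nat.factorial_le_pow n
  have h2 : n ^ n ≤ (2 ^ n) ^ n := Nat.pow_le_pow_left (Nat.lt_two_pow_self).le n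
  rw [← pow_mul] at h2
  have h3 : 2 ^ (n * n) < 2 ^ (n * n + 1) := Nat.pow_lt_pow_right (by norm_num) (by omega)
  omega

theorem inNP_compl : InNP TPERFᶜ := by
  refine inNP_of_tree (100 * (Polynomial.X + 1) ^ 3 * (Polynomial.X + 2)) verif verif_poly
    fun w => ?_
  have hq : (100 * (Polynomial.X + 1) ^ 3 * (Polynomial.X + 2) : Polynomial ℕ).eval w.length =
      100 * (w.length + 1) ^ 3 * (w.length + 2) := by simp
  rw [hq]
  constructor
  · intro hw
    by_cases hg : goodW w = true
    · obtain ⟨n, G, rfl⟩ := (goodW_iff w).1 hg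
      have hG : ¬ TPerfect G := fun h => hw ((adjWord_mem_TPERF G).2 h)
      obtain ⟨i₀, D, D', X, rows, d, hc, hD, hD', hX, hlen, hr, hd⟩ := exists_cert G hG
      have hf := factorial_lt n
      obtain ⟨t, ht, e1, e2, e3, e4, e5, e6⟩ := exists_tree n (n * n + 1) i₀ D D' X rows d hc.i₀n
        (by omega) (by omega) (fun v => by have := hX v; omega) hlen.le
        (fun r hrr => by
          have h1 := hr r hrr
          have h2 := hc.rowsOK r hrr
          refine ⟨?_, h1.1, h2.1, by omega, by omega⟩
          rcases h2.2 with h | h | h | h <;> omega)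
        (fun r v e => by have := hd r v e; omega)
      refine ⟨t, ?_, ?_⟩
      · rw [length_adjWord]
        have hn : n ≤ n * n := Nat.le_mul_self n
        calc t.size ≤ 100 * (n + 1) ^ 3 * (n * n + 1 + 1) := ht
          _ ≤ 100 * (n * n + 1) ^ 3 * (n * n + 2) := by gcongr
      · unfold verif
        rw [Bool.or_eq_true]
        right
        simp only [rootOf_adjWord]
        rw [chk_iff]
        have hrows : (cRows t).map rowOf = rows := e5
        rw [hrows, e1, e2, e3]
        exact hc.congr (fun i hi j hj => (wAdj_adjWord G i j hi hj).symm)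
          (fun v hv => (e4 v hv).symm) (fun r hr v hv e he => (e6 r hr v hv e he).symm)
    · refine ⟨.leaf, ?_, ?_⟩
      · have : 1 ≤ 100 * (w.length + 1) ^ 3 * (w.length + 2) := Nat.succ_le_of_lt (by positivity)
        simpa [T.size] using this
      · unfold verif
        simp only [Bool.or_eq_true, Bool.not_eq_true']
        exact Or.inl (by simpa using hg)
  · rintro ⟨t, -, ht⟩ ⟨n, G, rfl, hG⟩
    have hg : goodW (adjWord G) = true := (goodW_iff _).2 ⟨n, G, rfl⟩
    unfold verif at ht
    simp only [hg, Bool.not_true, Bool.false_or, rootOf_adjWord] at ht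
    rw [chk_iff] at ht
    exact not_tperfect_of_cert G _ _ _ _ _ _ (ht.congr (fun i hi j hj => wAdj_adjWord G i j hi hj)
      (fun v hv => rfl) (fun r hr v hv e he => rfl)) hG

end Pool.Agent.H43.TP
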