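import Pool.Agent.H83.Tableau

/-!
# Binary numbers: definitions
-/

set_option autoImplicit false

namespace Pool.Agent.H43.TP

open Pool.Agent.H83

/-- The value of a binary number, least significant digit first. -/
def val : List Bool → ℕ
  | [] => 0
  | b :: l => (if b then 1 else 0) + 2 * val l

/-- Digits of two numbers, padded to the same length. -/
def zipB (a b : List Bool) : List (Bool × Bool) :=
  (List.range (if a.length ≤ b.length then b.length else a.length)).map
    (fun i => ((a.drop i).headD false, (b.drop i).headD false))

/-- One step of the addition; the state is the carry and the reversed list of digits. -/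
def addStep (s : Bool × List Bool) (p : Bool × Bool) : Bool × List Bool :=
  ((p.1 && p.2) || (s.1 && (p.1 || p.2)),
    (bif p.1 then (bif p.2 then s.1 else !s.1) else (bif p.2 then !s.1 else s.1)) :: s.2)

/-- Addition. -/
def addB (a b : List Bool) : List Bool :=
  ((zipB a b).foldl addStep (false, [])).2.reverse ++ [((zipB a b).foldl addStep (false, [])).1]

/-- One step of the comparison. -/
def leStep (s : Bool) (p : Bool × Bool) : Bool :=
  bif p.1 then (bif p.2 then s else false) else (bif p.2 then true else s)

/-- Comparison. -/
def leB (a b : List Bool) : Bool := (zipB a b).foldl leStep true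

/-- Equality of values. -/
def eqB2 (a b : List Bool) : Bool := leB a b && leB b a

/-- Sum of a list. -/
def sumB (l : List (List Bool)) : List Bool := l.foldl addB []

/-- Parity. -/
def oddB (n : ℕ) : Bool := (List.range n).foldl (fun b _ => !b) false

end Pool.Agent.H43.TP
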