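import Pool.Agent.H43.TPM.EXT

/-!
# Cramer's rule

PROOF. The tight vectors span `V → ℝ` (`V = Fin n`), so there is a linearly independent subset with `n` elements
(`exists_linearIndependent`, `finrank = n`); index it by `Fin n`: an `n x n` matrix `A` with integer entries `0, 1`, linearly
independent rows, with right-hand sides `β j` (integers: `0`, `1` or `(card - 1)/2` with odd card), `A x = β`.
`det A ≠ 0` (as a real matrix; it is the cast of the integer determinant). Let `Δ = |det A|` and
`s = sign (det A)`. `adj(A) A = det A • 1` gives `Δ * x v = s * (adj(A) β) v`, an integer, and `≥ 0` as `x v ≥ 0`: this is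
`X v`. With `λ j = s * adj(A) i₀ j`: `∑_j λ j * A j v = Δ` if `v = i₀` and `0` otherwise. Bounds: `Matrix.det_le` with entries
`≤ 1`: `|det| ≤ n!`, and the entries of the adjugate are such determinants too (`Matrix.adjugate_apply`, `updateRow` /
`updateCol` with a unit vector).
-/

set_option autoImplicit false

namespace Pool.Agent.H43.TP

private theorem CRM_card {V : Type} {G : SimpleGraph V} {C : Finset V} (h : IsOddCycleSet G C) :
    Odd C.card := by
  classical
  obtain ⟨v, c, hc, ho, hC⟩ := h
  have h1 : C = c.support.tail.toFinset := by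
    ext w
    rw [hC w, List.mem_toFinset]
    constructor
    · intro hw
      rw [SimpleGraph.Walk.mem_support_iff] at hw
      rcases hw with rfl | hw
      · exact SimpleGraph.Walk.end_mem_tail_support (by
          intro hn; exact hc.ne_nil (by
            cases c with
            | nil => rfl
            | cons _ _ => simp at hn))
      · exact hw
    · intro hw
      exact List.mem_of_mem_tail hw
  have h2 : C.card = c.length := by
    rw [h1, List.toFinset_card_of_nodup hc.support_nodup]
    simp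
  rw [h2]
  exact ho

private theorem CRM_int {n : ℕ} {G : SimpleGraph (Fin n)} {x a : Fin n → ℝ} {β : ℝ}
    (h : TightVec G x a β) :
    ∃ (M : Fin n → ℤ) (b : ℤ), (∀ v, a v = M v) ∧ (∀ v, |M v| ≤ 1) ∧ β = b := by
  classical
  have key : ∀ S : Set (Fin n), a = S.indicator 1 → ∃ M : Fin n → ℤ, (∀ v, a v = M v) ∧
      (∀ v, |M v| ≤ 1) := by
    intro S hS
    refine ⟨fun v => if v ∈ S then 1 else 0, fun v => ?_, fun v => ?_⟩
    · rw [hS]
      by_cases hv : v ∈ S <;> simp [hv]
    · by_cases hv : v ∈ S <;> simp [hv]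
  obtain ⟨_, h⟩ := h
  rcases h with ⟨v, ha, hb⟩ | ⟨u, v, _, ha, hb⟩ | ⟨C, hC, ha, hb⟩
  · obtain ⟨M, h1, h2⟩ := key _ ha
    rcases hb with hb | hb
    · exact ⟨M, 0, h1, h2, by simp [hb]⟩
    · exact ⟨M, 1, h1, h2, by simp [hb]⟩
  · obtain ⟨M, h1, h2⟩ := key _ ha
    exact ⟨M, 1, h1, h2, by simp [hb]⟩
  · obtain ⟨M, h1, h2⟩ := key _ ha
    obtain ⟨k, hk⟩ := CRM_card hC
    refine ⟨M, k, h1, h2, ?_⟩
    rw [hb, hk]
    push_cast
    ring

private theorem CRM_det {n : ℕ} {M : Matrix (Fin n) (Fin n) ℤ} (h : ∀ i j, |M i j| ≤ 1) :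
    M.det.natAbs ≤ n.factorial := by
  have := Matrix.det_le (A := M) (abv := AbsoluteValue.abs) (x := (1 : ℤ)) h
  simp only [AbsoluteValue.abs_apply, Fintype.card_fin, one_pow, nsmul_eq_mul, mul_one] at this
  zify
  exact_mod_cast this

theorem exists_integral {n : ℕ} (G : SimpleGraph (Fin n)) (x : Fin n → ℝ)
    (hx : ∀ v, 0 ≤ x v)
    (hspan : Submodule.span ℝ {a | ∃ β, TightVec G x a β} = ⊤) (i₀ : Fin n) :
    ∃ (D : ℕ) (X : Fin n → ℕ) (a : Fin n → Fin n → ℝ) (β : Fin n → ℝ) (l : Fin n → ℤ),
      0 < D ∧ D ≤ n.factorial ∧ (∀ v, (X v : ℝ) = D * x v) ∧ (∀ j, TightVec G x (a j) (β j)) ∧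
      (∀ j, (l j).natAbs ≤ n.factorial) ∧
      ∀ v, ∑ j, (l j : ℝ) * a j v = if v = i₀ then (D : ℝ) else 0 := by
  classical
  obtain ⟨B, hBS, hBspan, hBli⟩ := exists_linearIndependent ℝ {a | ∃ β, TightVec G x a β}
  rw [hspan] at hBspan
  -- the basis
  let bas : Module.Basis B ℝ (Fin n → ℝ) := Module.Basis.mk hBli (by
    rw [Subtype.range_coe, hBspan])
  have : Fintype B := FiniteDimensional.fintypeBasisIndex bas
  have hcard : Fintype.card B = n := by
    have := Module.finrank_eq_card_basis bas
    rw [Module.finrank_fin_fun] at this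
    exact this.symm
  let e : Fin n ≃ B := (Fintype.equivFinOfCardEq hcard).symm
  have hli : LinearIndependent ℝ (fun j => ((e j : B) : Fin n → ℝ)) := hBli.comp _ e.injective
  choose β hβ using fun j : Fin n => hBS (e j).2
  choose M b hM hM1 hb using fun j : Fin n => CRM_int (hβ j)
  let A : Matrix (Fin n) (Fin n) ℤ := Matrix.of M
  have hA : A.map (Int.cast : ℤ → ℝ) = Matrix.of (fun j => ((e j : B) : Fin n → ℝ)) := by
    ext i j
    simp [A, hM]
  have hdet : ((A.det : ℤ) : ℝ) ≠ 0 := by
    have h1 : ((A.det : ℤ) : ℝ) = (A.map (Int.cast : ℤ → ℝ)).det := by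
      exact (Int.castRingHom ℝ).map_det A
    rw [h1, hA]
    have h2 : LinearIndependent ℝ (Matrix.of (fun j => ((e j : B) : Fin n → ℝ))).row := hli
    rw [Matrix.linearIndependent_rows_iff_isUnit] at h2
    exact ((Matrix.isUnit_iff_isUnit_det _).1 h2).ne_zero
  have hdet' : A.det ≠ 0 := by exact_mod_cast hdet
  set d : ℤ := A.det with hd
  have hs : d.sign * d = (d.natAbs : ℤ) := by rw [Int.sign_mul_self_eq_natAbs]
  have hs1 : |d.sign| = 1 := by
    rw [Int.abs_sign_of_ne_zero hdet']
  -- the integral point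
  have hXe : ∀ v, ((d.sign * (A.adjugate.mulVec b) v : ℤ) : ℝ) = (d.natAbs : ℝ) * x v := by
    intro v
    have h1 : (A.map (Int.cast : ℤ → ℝ)).mulVec x = fun j => (b j : ℝ) := by
      funext j
      have := (hβ j).1
      rw [finsum_eq_sum_of_fintype, hb j] at this
      rw [← this]
      simp [Matrix.mulVec, dotProduct, A, hM]
    have h2 : (A.adjugate.map (Int.cast : ℤ → ℝ)).mulVec (fun j => (b j : ℝ)) =
        (d : ℝ) • x := by
      rw [← h1, Matrix.mulVec_mulVec]
      have h3 : A.adjugate.map (Int.cast : ℤ → ℝ) * A.map (Int.cast : ℤ → ℝ) =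
          (d : ℝ) • (1 : Matrix (Fin n) (Fin n) ℝ) := by
        ext i j
        have h4 := congrFun (congrFun (Matrix.adjugate_mul A) i) j
        rw [Matrix.mul_apply] at h4
        have h5 := congrArg (Int.cast : ℤ → ℝ) h4
        rw [Matrix.mul_apply]
        simp only [Matrix.map_apply]
        rw [Int.cast_sum] at h5
        simp only [Int.cast_mul] at h5
        rw [h5]
        by_cases hij : i = j
        · subst hij
          simp [Matrix.smul_apply, ← hd]
        · simp [Matrix.smul_apply, Matrix.one_apply_ne hij]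
      rw [h3, Matrix.smul_mulVec, Matrix.one_mulVec]
    have h5 : (((A.adjugate.mulVec b) v : ℤ) : ℝ) = (d : ℝ) * x v := by
      have := congrFun h2 v
      simp only [Matrix.mulVec, dotProduct, Matrix.map_apply, Pi.smul_apply, smul_eq_mul] at this ⊢
      rw [← this]
      push_cast
      rfl
    rw [Int.cast_mul, h5, ← mul_assoc]
    congr 1
    have := congrArg (Int.cast : ℤ → ℝ) hs
    rw [Int.cast_mul, Int.cast_natCast] at this
    exact this
  have hX0 : ∀ v, 0 ≤ d.sign * (A.adjugate.mulVec b) v := by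
    intro v
    have : (0 : ℝ) ≤ ((d.sign * (A.adjugate.mulVec b) v : ℤ) : ℝ) := by
      rw [hXe v]
      exact mul_nonneg (Nat.cast_nonneg _) (hx v)
    exact_mod_cast this
  refine ⟨d.natAbs, fun v => (d.sign * (A.adjugate.mulVec b) v).toNat,
    fun j => ((e j : B) : Fin n → ℝ), β, fun j => d.sign * A.adjugate i₀ j,
    Int.natAbs_pos.2 hdet', CRM_det (fun i j => hM1 i j), ?_, hβ, ?_, ?_⟩
  · intro v
    rw [← hXe v]
    have := Int.toNat_of_nonneg (hX0 v)
    exact_mod_cast congrArg (Int.cast : ℤ → ℝ) this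
  · intro j
    rw [Int.natAbs_mul]
    have h1 : d.sign.natAbs = 1 := by
      have := hs1
      zify
      exact this
    rw [h1, one_mul, Matrix.adjugate_apply]
    refine CRM_det fun i k => ?_
    rw [Matrix.updateRow_apply]
    split_ifs with h
    · by_cases hk : k = i₀
      · subst hk; simp
      · simp [hk]
    · exact hM1 i k
  · intro v
    have h1 : ∑ j, (d.sign * A.adjugate i₀ j) * A j v = if v = i₀ then (d.natAbs : ℤ) else 0 := by
      have h2 := congrFun (congrFun (Matrix.adjugate_mul A) i₀) v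
      rw [Matrix.mul_apply] at h2
      simp only [mul_assoc]
      rw [← Finset.mul_sum, h2]
      by_cases hv : v = i₀
      · subst hv
        simp [Matrix.smul_apply, ← hd, hs]
      · have hv' : i₀ ≠ v := fun h => hv h.symm
        simp [Matrix.smul_apply, hv, Matrix.one_apply_ne hv']
    have h2 := congrArg (Int.cast : ℤ → ℝ) h1
    rw [Int.cast_sum, Int.cast_ite, Int.cast_natCast, Int.cast_zero] at h2
    simp only [Int.cast_mul] at h2
    have h3 : ∀ j, ((A j v : ℤ) : ℝ) = ((e j : B) : Fin n → ℝ) v := by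
      intro j
      rw [hM j v]
      rfl
    simp only [h3] at h2
    simp only [Int.cast_mul]
    exact h2

end Pool.Agent.H43.TP
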