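import Pool.Agent.H43.TPM.MDef
import Pool.Agent.H43.TP.SUB

/-!
# A fractional vertex and its tight constraints

PROOF. (1) `Q = oddCyclePolytope G` is convex, closed and bounded (contained in the box), so compact. If `G` is not
t-perfect, some extreme point `x` of `Q` is not in `P = stablePolytope G`: otherwise, by Krein-Milman
(`closure_convexHull_extremePoints`) and since `P` is closed (`isClosed_stablePolytope`) and convex, `Q ⊆ P`, and `P ⊆ Q` by
`stablePolytope_subset`.
(2) Some coordinate of `x` is not `0` or `1`: otherwise `x` is the incidence vector of `{v | x v = 1}`, which is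
independent by the edge inequalities, so `x ∈ P`.
(3) The tight constraint vectors span: `TightVec G x a β` : `a : V → ℝ` is a constraint vector (`0/1`-valued) with
right-hand side `β`, tight at `x`. If their span is not everything, there is `e ≠ 0` with `∑ a v * e v = 0` for all tight `a`
(e.g. `Submodule.exists_dual_map_eq_bot...`, `Submodule.exists_le_ker_of_lt_top`, and the dot product representation
`LinearMap.pi_apply...` / `Matrix.dotProduct`), and for small `ε > 0` both `x ± ε e` are in `Q`: there are finitely many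
constraints (`Finset` of subsets; `V` is finite), the tight ones stay tight, the others have positive slack. This
contradicts extremality (`mem_extremePoints`/`openSegment`).
-/

set_option autoImplicit false

namespace Pool.Agent.H43.TP

variable {V : Type}

/-- `a` is the vector and `β` the right-hand side of a constraint of `Q(G)` that is tight at `x`. -/
def TightVec (G : SimpleGraph V) (x : V → ℝ) (a : V → ℝ) (β : ℝ) : Prop :=
  ∑ᶠ v, a v * x v = β ∧
  ((∃ v, a = ({v} : Set V).indicator 1 ∧ (β = 0 ∨ β = 1)) ∨
   (∃ u v, G.Adj u v ∧ a = ({u, v} : Set V).indicator 1 ∧ β = 1) ∨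
   (∃ C : Finset V, IsOddCycleSet G C ∧ a = (C : Set V).indicator 1 ∧ β = ((C.card : ℝ) - 1) / 2))

open Filter Topology

private theorem EXT_isClosed (G : SimpleGraph V) : IsClosed (oddCyclePolytope G) := by
  have h : oddCyclePolytope G = (⋂ v, {x : V → ℝ | 0 ≤ x v} ∩ {x : V → ℝ | x v ≤ 1}) ∩
      ((⋂ u, ⋂ v, ⋂ (_ : G.Adj u v), {x : V → ℝ | x u + x v ≤ 1}) ∩
        ⋂ C : Finset V, ⋂ (_ : IsOddCycleSet G C),
          {x : V → ℝ | ∑ v ∈ C, x v ≤ ((C.card : ℝ) - 1) / 2}) := by
    ext x
    simp [oddCyclePolytope]
  rw [h]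
  refine IsClosed.inter ?_ (IsClosed.inter ?_ ?_)
  · refine isClosed_iInter fun v => IsClosed.inter ?_ ?_
    · exact isClosed_le continuous_const (continuous_apply v)
    · exact isClosed_le (continuous_apply v) continuous_const
  · refine isClosed_iInter fun u => isClosed_iInter fun v => isClosed_iInter fun _ => ?_
    exact isClosed_le ((continuous_apply u).add (continuous_apply v)) continuous_const
  · refine isClosed_iInter fun C => isClosed_iInter fun _ => ?_
    exact isClosed_le (continuous_finsetSum C fun v _ => continuous_apply v) continuous_const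

private theorem EXT_isCompact (G : SimpleGraph V) : IsCompact (oddCyclePolytope G) := by
  refine IsCompact.of_isClosed_subset (isCompact_univ_pi fun _ : V => isCompact_Icc (a := (0 : ℝ)) (b := 1))
    (EXT_isClosed G) ?_
  intro x hx v _
  exact hx.1 v

private theorem EXT_convex (G : SimpleGraph V) : Convex ℝ (oddCyclePolytope G) := by
  intro x hx y hy a b ha hb hab
  obtain ⟨hx1, hx2, hx3⟩ := hx
  obtain ⟨hy1, hy2, hy3⟩ := hy
  refine ⟨fun v => ?_, fun u v huv => ?_, fun C hC => ?_⟩
  · simp only [Pi.add_apply, Pi.smul_apply, smul_eq_mul]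
    have h1 := hx1 v
    have h2 := hy1 v
    constructor
    · nlinarith [mul_nonneg ha h1.1, mul_nonneg hb h2.1]
    · nlinarith [mul_le_mul_of_nonneg_left h1.2 ha, mul_le_mul_of_nonneg_left h2.2 hb]
  · simp only [Pi.add_apply, Pi.smul_apply, smul_eq_mul]
    nlinarith [mul_le_mul_of_nonneg_left (hx2 u v huv) ha, mul_le_mul_of_nonneg_left (hy2 u v huv) hb]
  · simp only [Pi.add_apply, Pi.smul_apply, smul_eq_mul]
    rw [Finset.sum_add_distrib, ← Finset.mul_sum, ← Finset.mul_sum]
    have h1 := mul_le_mul_of_nonneg_left (hx3 C hC) ha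
    have h2 := mul_le_mul_of_nonneg_left (hy3 C hC) hb
    calc a * ∑ i ∈ C, x i + b * ∑ i ∈ C, y i
        ≤ a * (((C.card : ℝ) - 1) / 2) + b * (((C.card : ℝ) - 1) / 2) := add_le_add h1 h2
      _ = (a + b) * (((C.card : ℝ) - 1) / 2) := by ring
      _ = ((C.card : ℝ) - 1) / 2 := by rw [hab, one_mul]

/-- a linear inequality which is strict or whose direction vanishes stays true for small `t` -/
private theorem EXT_small {s c β : ℝ} (h : s ≤ β) (h' : s = β → c = 0) :
    ∀ᶠ t in 𝓝 (0 : ℝ), s + t * c ≤ β := by
  rcases h.lt_or_eq with h1 | h1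
  · have hc : Tendsto (fun t : ℝ => s + t * c) (𝓝 0) (𝓝 (s + 0 * c)) :=
      tendsto_const_nhds.add (tendsto_id.mul tendsto_const_nhds)
    rw [zero_mul, add_zero] at hc
    filter_upwards [hc.eventually (gt_mem_nhds h1)] with t ht
    exact ht.le
  · refine Eventually.of_forall fun t => ?_
    rw [h' h1, mul_zero, add_zero]
    exact h

private theorem EXT_ind [Fintype V] (C : Finset V) (y : V → ℝ) :
    ∑ v, (C : Set V).indicator (1 : V → ℝ) v * y v = ∑ v ∈ C, y v := by
  classical
  rw [← Finset.sum_filter_add_sum_filter_not Finset.univ (fun v => v ∈ C)]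
  have h1 : ∑ v ∈ Finset.univ.filter (fun v => v ∉ C),
      (C : Set V).indicator (1 : V → ℝ) v * y v = 0 := by
    refine Finset.sum_eq_zero fun v hv => ?_
    rw [Set.indicator_of_notMem, zero_mul]
    simpa using hv
  have h2 : Finset.univ.filter (fun v => v ∈ C) = C := by
    ext v
    simp
  rw [h1, add_zero, h2]
  refine Finset.sum_congr rfl fun v hv => ?_
  rw [Set.indicator_of_mem (Finset.mem_coe.2 hv), Pi.one_apply, one_mul]

theorem exists_vertex [Fintype V] (G : SimpleGraph V) (h : ¬ TPerfect G) :
    ∃ x ∈ oddCyclePolytope G, (∃ i, 0 < x i ∧ x i < 1) ∧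
      Submodule.span ℝ {a | ∃ β, TightVec G x a β} = ⊤ := by
  classical
  -- an extreme point which is not in the stable set polytope
  obtain ⟨x, hx, hxP⟩ : ∃ x ∈ (oddCyclePolytope G).extremePoints ℝ, x ∉ stablePolytope G := by
    by_contra hcon
    push Not at hcon
    apply h
    refine Set.Subset.antisymm (stablePolytope_subset G) ?_
    rw [← closure_convexHull_extremePoints (EXT_isCompact G) (EXT_convex G)]
    refine closure_minimal ?_ (isClosed_stablePolytope G)
    exact convexHull_min hcon (convex_convexHull ℝ _)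
  rw [mem_extremePoints] at hx
  obtain ⟨hxQ, hext⟩ := hx
  refine ⟨x, hxQ, ?_, ?_⟩
  · by_contra hcon
    push Not at hcon
    apply hxP
    have h01 : ∀ v, x v = 0 ∨ x v = 1 := by
      intro v
      rcases (hxQ.1 v).1.lt_or_eq with h1 | h1
      · exact Or.inr (le_antisymm (hxQ.1 v).2 (hcon v h1))
      · exact Or.inl h1.symm
    refine subset_convexHull ℝ _ ⟨{v | x v = 1}, ?_, ?_⟩
    · intro u hu v hv _ huv
      have h1 := hxQ.2.1 u v huv
      have hu' : x u = 1 := hu
      have hv' : x v = 1 := hv
      rw [hu', hv'] at h1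
      norm_num at h1
    · funext v
      rcases h01 v with h1 | h1
      · rw [Set.indicator_of_notMem, h1]
        show ¬ x v = 1
        rw [h1]
        norm_num
      · rw [Set.indicator_of_mem (show v ∈ {v | x v = 1} from h1), h1]
        rfl
  · by_contra hcon
    obtain ⟨f, hf, hker⟩ := Submodule.exists_le_ker_of_lt_top _ (lt_top_iff_ne_top.2 hcon)
    set e : V → ℝ := fun i => f fun j => if i = j then 1 else 0 with he
    have hfa : ∀ a : V → ℝ, f a = ∑ v, a v * e v := by
      intro a
      rw [LinearMap.pi_apply_eq_sum_univ f a]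
      rfl
    have htight : ∀ a β, TightVec G x a β → ∑ v, a v * e v = 0 := by
      intro a β ha
      rw [← hfa]
      exact LinearMap.mem_ker.1 (hker (Submodule.subset_span ⟨β, ha⟩))
    have hC : ∀ (C : Finset V) (β : ℝ), TightVec G x ((C : Set V).indicator 1) β →
        ∑ v ∈ C, e v = 0 := by
      intro C β ha
      rw [← EXT_ind]
      exact htight _ β ha
    have hsum : ∀ C : Finset V, ∑ᶠ v, (C : Set V).indicator (1 : V → ℝ) v * x v = ∑ v ∈ C, x v := by
      intro C
      rw [finsum_eq_sum_of_fintype, EXT_ind]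
    have key : ∀ᶠ t in 𝓝 (0 : ℝ), x + t • e ∈ oddCyclePolytope G := by
      have k1 : ∀ᶠ t in 𝓝 (0 : ℝ), ∀ v, 0 ≤ x v + t * e v ∧ x v + t * e v ≤ 1 := by
        refine eventually_all.2 fun v => ?_
        have h0 : x v = 0 → e v = 0 := by
          intro h1
          have := hC {v} 0 ⟨by rw [hsum]; simpa using h1,
            Or.inl ⟨v, by rw [Finset.coe_singleton], Or.inl rfl⟩⟩
          simpa using this
        have h1 : x v = 1 → e v = 0 := by
          intro h1
          have := hC {v} 1 ⟨by rw [hsum]; simpa using h1,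
            Or.inl ⟨v, by rw [Finset.coe_singleton], Or.inr rfl⟩⟩
          simpa using this
        have h2 := EXT_small (s := - x v) (c := - e v) (β := 0) (by linarith [(hxQ.1 v).1])
          (fun h3 => by rw [h0 (by linarith), neg_zero])
        have h3 := EXT_small (hxQ.1 v).2 h1
        filter_upwards [h2, h3] with t h4 h5
        exact ⟨by linarith, h5⟩
      have k2 : ∀ᶠ t in 𝓝 (0 : ℝ), ∀ u v, G.Adj u v → x u + x v + t * (e u + e v) ≤ 1 := by
        refine eventually_all.2 fun u => eventually_all.2 fun v => ?_
        by_cases huv : G.Adj u v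
        · have hne : u ≠ v := huv.ne
          have h1 : x u + x v = 1 → e u + e v = 0 := by
            intro h1
            have := hC {u, v} 1 ⟨by rw [hsum, Finset.sum_pair hne]; exact h1,
              Or.inr (Or.inl ⟨u, v, huv, by rw [Finset.coe_pair], rfl⟩)⟩
            rwa [Finset.sum_pair hne] at this
          filter_upwards [EXT_small (hxQ.2.1 u v huv) h1] with t ht _
          exact ht
        · exact Eventually.of_forall fun t h1 => absurd h1 huv
      have k3 : ∀ᶠ t in 𝓝 (0 : ℝ), ∀ C : Finset V, IsOddCycleSet G C →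
          ∑ v ∈ C, x v + t * ∑ v ∈ C, e v ≤ ((C.card : ℝ) - 1) / 2 := by
        refine eventually_all.2 fun C => ?_
        by_cases hCo : IsOddCycleSet G C
        · have h1 : ∑ v ∈ C, x v = ((C.card : ℝ) - 1) / 2 → ∑ v ∈ C, e v = 0 := by
            intro h1
            exact hC C _ ⟨by rw [hsum]; exact h1, Or.inr (Or.inr ⟨C, hCo, rfl, rfl⟩)⟩
          filter_upwards [EXT_small (hxQ.2.2 C hCo) h1] with t ht _
          exact ht
        · exact Eventually.of_forall fun t h1 => absurd h1 hCo
      filter_upwards [k1, k2, k3] with t h1 h2 h3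
      refine ⟨fun v => ?_, fun u v huv => ?_, fun C hCo => ?_⟩
      · simpa only [Pi.add_apply, Pi.smul_apply, smul_eq_mul] using h1 v
      · have := h2 u v huv
        simp only [Pi.add_apply, Pi.smul_apply, smul_eq_mul]
        linarith
      · have := h3 C hCo
        simp only [Pi.add_apply, Pi.smul_apply, smul_eq_mul]
        rw [Finset.sum_add_distrib, ← Finset.mul_sum]
        exact this
    have key2 : ∀ᶠ t in 𝓝 (0 : ℝ), x + (-t) • e ∈ oddCyclePolytope G := by
      have h1 : Tendsto (fun t : ℝ => -t) (𝓝 0) (𝓝 0) := by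
        have := (continuous_neg (G := ℝ)).tendsto 0
        rwa [neg_zero] at this
      exact h1.eventually key
    obtain ⟨t, ⟨ht1, ht2⟩, ht0⟩ := (((key.and key2).filter_mono
      (nhdsWithin_le_nhds (s := Set.Ioi (0 : ℝ)))).and self_mem_nhdsWithin).exists
    have ht0' : (0 : ℝ) < t := ht0
    have h3 := hext _ ht1 _ ht2 ⟨1 / 2, 1 / 2, by norm_num, by norm_num, by norm_num, by
      funext v
      simp only [Pi.add_apply, Pi.smul_apply, smul_eq_mul]
      ring⟩
    have h4 : e = 0 := by
      funext v
      have h5 := congrFun h3.1 v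
      simp only [Pi.add_apply, Pi.smul_apply, smul_eq_mul] at h5
      have h6 : t * e v = 0 := by linarith
      rcases mul_eq_zero.1 h6 with h7 | h7
      · exact absurd h7 ht0'.ne'
      · exact h7
    apply hf
    ext a
    simp [hfa, h4]

end Pool.Agent.H43.TP
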