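import Pool.Agent.H43.TP.Lang

/-!
# Certificates of t-imperfection

A certificate for a graph on `{0, ..., n-1}` consists of a point `x = X / D`, a coordinate `i₀` with
`0 < X i₀ < D`, a list of rows (tight constraints with coefficients `lp - lm`) whose combination is
`D'` times the `i₀`-th unit vector, and potentials `d` showing that `x` satisfies the odd cycle inequalities.
-/

set_option autoImplicit false

namespace Pool.Agent.H43.TP

/-- A row: kind, list of vertices, positive and negative coefficient. -/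
abbrev Row : Type := ℕ × List ℕ × ℕ × ℕ

/-- A row is a constraint of the graph that is tight at `X / D`. Kinds: `0`: lower bound; `1`: upper
bound; `2`: edge; otherwise: odd closed walk. -/
def RowOK (n : ℕ) (adj : ℕ → ℕ → Prop) (D : ℕ) (X : ℕ → ℕ) (r : Row) : Prop :=
  (∀ v ∈ r.2.1, v < n) ∧
  ((r.1 = 0 ∧ r.2.1.length = 1 ∧ (r.2.1.map X).sum = 0) ∨
   (r.1 = 1 ∧ r.2.1.length = 1 ∧ (r.2.1.map X).sum = D) ∨
   (r.1 = 2 ∧ r.2.1.length = 2 ∧ adj (r.2.1.getD 0 0) (r.2.1.getD 1 0) ∧ (r.2.1.map X).sum = D) ∨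
   (r.1 = 3 ∧ Odd r.2.1.length ∧
      (∀ i < r.2.1.length, adj (r.2.1.getD i 0) (r.2.1.getD ((i + 1) % r.2.1.length) 0)) ∧
      2 * (r.2.1.map X).sum + D = r.2.1.length * D))

/-- Certificates. The number `d r v 0` (`d r v 1`) is a lower bound for `D` times the slack of the walks of
even (odd) length from `r` to `v`. -/
structure CertOK (n : ℕ) (adj : ℕ → ℕ → Prop) (i₀ D D' : ℕ) (X : ℕ → ℕ) (rows : List Row)
    (d : ℕ → ℕ → ℕ → ℕ) : Prop where
  i₀n : i₀ < n
  posX : 0 < X i₀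
  ltX : X i₀ < D
  posD' : 0 < D'
  box : ∀ v < n, X v ≤ D
  edge : ∀ u < n, ∀ v < n, adj u v → X u + X v ≤ D
  rowsOK : ∀ r ∈ rows, RowOK n adj D X r
  comb : ∀ v < n, (rows.map (fun r => r.2.2.1 * r.2.1.count v)).sum =
    (rows.map (fun r => r.2.2.2 * r.2.1.count v)).sum + if v = i₀ then D' else 0
  d0 : ∀ r < n, d r r 0 = 0
  d1 : ∀ r < n, D ≤ d r r 1
  dstep : ∀ r < n, ∀ v < n, ∀ w < n, adj v w →
    d r w 1 + (X v + X w) ≤ d r v 0 + D ∧ d r w 0 + (X v + X w) ≤ d r v 1 + D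

/-- The adjacency relation of a graph on `Fin n`, on the natural numbers. -/
def nAdj {n : ℕ} (G : SimpleGraph (Fin n)) (i j : ℕ) : Prop :=
  ∃ (hi : i < n) (hj : j < n), G.Adj ⟨i, hi⟩ ⟨j, hj⟩

/-- Slack of a walk. -/
noncomputable def slack {V : Type} {G : SimpleGraph V} (x : V → ℝ) :
    {i j : V} → G.Walk i j → ℝ
  | _, _, .nil => 0
  | i, _, .cons (v := k) _ w => (1 - x i - x k) + slack x w

end Pool.Agent.H43.TP
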