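import Pool.Agent.H43.TPM.MDef
import Pool.Agent.H43.TP.SUB

/-!
# Odd closed walks contain odd cycles

PROOF. Strong induction on the length: an odd closed walk `w` with nonnegative step slacks has an odd
cycle `c` with `slack c ≤ slack w`. `w = cons h p` (`length ≥ 1`), `h : G.Adj v k`, `p : Walk k v`. If `p` is a path:
then `w` is a cycle (`SimpleGraph.Walk.cons_isCycle_iff`: `p.IsPath` and `s(v,k) ∉ p.edges`; if the edge `s(v,k)` is in
the path `p` from `k` to `v`, then `p` has length `1`, so `w` has length `2`, not odd). If `p` is not a path, `p` decomposes as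
`p₁ ++ c ++ p₂` with a closed walk `c` of positive length (lemma by induction on `p`: `p = cons h' p'`; if the start `a` of
`p` is in `p'.support`, take `c = cons h' (p'.takeUntil a)`, `p₁ = nil`, `p₂ = p'.dropUntil a`; otherwise `p'` is not a
path (`Walk.cons_isPath_iff`), use the induction hypothesis). Then `c` and `cons h (p₁ ++ p₂)` are closed walks, both
shorter than `w` (`c` has length `≤ length p < length w`, and `length c > 0`), their lengths add up to an odd number,
and so do their slacks to `slack w`; take the odd one.
For the second statement: with `cycle_support_tail`, `slack x c = c.length - 2 * ∑_{C} x ≥ 1`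
(`C = c.support.toFinset`); the step slacks are nonnegative since `x ∈ Q(G)`.
-/

set_option autoImplicit false

namespace Pool.Agent.H43.TP

variable {V : Type}

theorem OCW_slack_append {G : SimpleGraph V} (x : V → ℝ) {i j k : V} (p : G.Walk i j)
    (q : G.Walk j k) : slack x (p.append q) = slack x p + slack x q := by
  induction p with
  | nil => simp [slack]
  | cons h p ih =>
    rw [SimpleGraph.Walk.cons_append]
    simp only [slack]
    rw [ih]
    ring

theorem OCW_slack_nonneg {G : SimpleGraph V} {x : V → ℝ}
    (hx : ∀ u v, G.Adj u v → x u + x v ≤ 1) {i j : V} (p : G.Walk i j) : 0 ≤ slack x p := by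
  induction p with
  | nil => simp [slack]
  | @cons a b c h p ih =>
    simp only [slack]
    have := hx a b h
    linarith

theorem OCW_decomp {G : SimpleGraph V} {a b : V} (p : G.Walk a b) (hp : ¬ p.IsPath) :
    ∃ (u : V) (p₁ : G.Walk a u) (c : G.Walk u u) (p₂ : G.Walk u b),
      p = p₁.append (c.append p₂) ∧ 0 < c.length := by
  classical
  induction p with
  | nil => exact absurd SimpleGraph.Walk.IsPath.nil hp
  | @cons a k b h p ih =>
    by_cases ha : a ∈ p.support
    · refine ⟨a, SimpleGraph.Walk.nil, SimpleGraph.Walk.cons h (p.takeUntil a ha),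
        p.dropUntil a ha, ?_, ?_⟩
      · rw [SimpleGraph.Walk.nil_append, SimpleGraph.Walk.cons_append,
          SimpleGraph.Walk.take_spec]
      · rw [SimpleGraph.Walk.length_cons]
        omega
    · have hp' : ¬ p.IsPath := fun h' => hp ((SimpleGraph.Walk.cons_isPath_iff h p).2 ⟨h', ha⟩)
      obtain ⟨u, p₁, c, p₂, h1, h2⟩ := ih hp'
      refine ⟨u, SimpleGraph.Walk.cons h p₁, c, p₂, ?_, h2⟩
      rw [SimpleGraph.Walk.cons_append, ← h1]

theorem OCW_edge {G : SimpleGraph V} {v k : V} (h : G.Adj v k) (p : G.Walk k v) (hp : p.IsPath)
    (he : s(v, k) ∈ p.edges) : p.length = 1 := by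
  cases p with
  | nil => exact absurd h (G.irrefl)
  | @cons _ m _ h' p' =>
    rw [SimpleGraph.Walk.cons_isPath_iff] at hp
    rw [SimpleGraph.Walk.edges_cons, List.mem_cons] at he
    rcases he with he | he
    · rw [Sym2.eq_iff] at he
      rcases he with ⟨h1, h2⟩ | ⟨h1, h2⟩
      · exact absurd h (by rw [h1]; exact G.irrefl)
      · subst h1
        have h3 : p'.Nil := SimpleGraph.Walk.isPath_iff_nil.1 hp.1
        rw [SimpleGraph.Walk.length_cons, SimpleGraph.Walk.length_eq_zero_iff.2 h3]
    · exact absurd (SimpleGraph.Walk.snd_mem_support_of_mem_edges p' he) hp.2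

theorem exists_odd_cycle {G : SimpleGraph V} {x : V → ℝ} (hx : ∀ u v, G.Adj u v → x u + x v ≤ 1)
    {v : V} (w : G.Walk v v) (hw : Odd w.length) :
    ∃ (v' : V) (c : G.Walk v' v'), c.IsCycle ∧ Odd c.length ∧ slack x c ≤ slack x w := by
  have key : ∀ (n : ℕ) (v : V) (w : G.Walk v v), w.length = n → Odd w.length →
      ∃ (v' : V) (c : G.Walk v' v'), c.IsCycle ∧ Odd c.length ∧ slack x c ≤ slack x w := by
    intro n
    induction n using Nat.strong_induction_on with
    | _ n ih =>
      intro v w hn hw
      cases w with
      | nil => simp at hw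
      | @cons _ k _ h p =>
        by_cases hp : p.IsPath
        · refine ⟨v, SimpleGraph.Walk.cons h p, ?_, hw, le_rfl⟩
          rw [SimpleGraph.Walk.cons_isCycle_iff]
          refine ⟨hp, fun he => ?_⟩
          rw [SimpleGraph.Walk.length_cons, OCW_edge h p hp he] at hw
          exact absurd hw (by decide)
        · obtain ⟨u, p₁, c, p₂, h1, h2⟩ := OCW_decomp p hp
          have hlen : p.length = p₁.length + (c.length + p₂.length) := by
            rw [h1, SimpleGraph.Walk.length_append, SimpleGraph.Walk.length_append]
          have hsl : slack x p = slack x p₁ + (slack x c + slack x p₂) := by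
            rw [h1, OCW_slack_append, OCW_slack_append]
          rw [SimpleGraph.Walk.length_cons] at hn hw
          have hstep : 0 ≤ 1 - x v - x k := by
            have := hx v k h
            linarith
          rcases Nat.even_or_odd c.length with hc | hc
          · have h3 : (SimpleGraph.Walk.cons h (p₁.append p₂)).length =
                p₁.length + p₂.length + 1 := by
              rw [SimpleGraph.Walk.length_cons, SimpleGraph.Walk.length_append]
            have h4 : Odd (SimpleGraph.Walk.cons h (p₁.append p₂)).length := by
              rw [h3]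
              have h5 : p.length + 1 = c.length + (p₁.length + p₂.length + 1) := by omega
              rw [h5] at hw
              rcases Nat.even_or_odd (p₁.length + p₂.length + 1) with h6 | h6
              · exact absurd (hc.add h6) (Nat.not_even_iff_odd.2 hw)
              · exact h6
            obtain ⟨v', c', h6, h7, h8⟩ := ih _ (by rw [h3]; omega) v
              (SimpleGraph.Walk.cons h (p₁.append p₂)) rfl h4
            refine ⟨v', c', h6, h7, h8.trans ?_⟩
            simp only [slack]
            rw [OCW_slack_append, hsl]
            have := OCW_slack_nonneg hx c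
            linarith
          · obtain ⟨v', c', h6, h7, h8⟩ := ih _ (by omega) u c rfl hc
            refine ⟨v', c', h6, h7, h8.trans ?_⟩
            simp only [slack]
            rw [hsl]
            have h9 := OCW_slack_nonneg hx p₁
            have h10 := OCW_slack_nonneg hx p₂
            linarith
  exact key _ v w rfl hw

theorem OCW_slack_eq {G : SimpleGraph V} (x : V → ℝ) {i j : V} (w : G.Walk i j) :
    slack x w = (w.length : ℝ) - 2 * (w.support.map x).sum + x i + x j := by
  induction w with
  | nil =>
    simp [slack]
    ring
  | @cons a b c h w ih =>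
    simp only [slack]
    rw [ih, SimpleGraph.Walk.support_cons, List.map_cons, List.sum_cons,
      SimpleGraph.Walk.length_cons]
    push_cast
    ring

theorem slack_cycle {G : SimpleGraph V} (x : V → ℝ) (C : Finset V) (v : V) (c : G.Walk v v)
    (hc : c.IsCycle) (hC : ∀ w, w ∈ C ↔ w ∈ c.support) :
    slack x c = (C.card : ℝ) - 2 * ∑ w ∈ C, x w := by
  classical
  obtain ⟨h1, h2, h3, h4⟩ := cycle_support_tail G C v c hc hC
  have h5 : ∑ w ∈ C, x w = (c.support.tail.map x).sum := by
    rw [← h2, List.sum_toFinset x h1]
  rw [OCW_slack_eq, h5, h4, ← SimpleGraph.Walk.cons_tail_support c, List.map_cons, List.sum_cons,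
    List.tail_cons]
  ring

theorem one_le_slack {G : SimpleGraph V} {x : V → ℝ} (hx : x ∈ oddCyclePolytope G) {v : V}
    (w : G.Walk v v) (hw : Odd w.length) : 1 ≤ slack x w := by
  classical
  obtain ⟨v', c, hc, hodd, hle⟩ := exists_odd_cycle hx.2.1 w hw
  refine le_trans ?_ hle
  have h1 := hx.2.2 c.support.toFinset ⟨v', c, hc, hodd, fun w => List.mem_toFinset⟩
  rw [slack_cycle x c.support.toFinset v' c hc fun w => List.mem_toFinset]
  linarith

end Pool.Agent.H43.TP
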