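import Pool.Agent.H43.TPM.BDef
import Pool.Agent.H43.TPM.MDef

/-!
# The verifier: definitions
-/

set_option autoImplicit false

namespace Pool.Agent.H43.TP

open Pool.Agent.H83

/-- A tree as a list of trees (the identity on codes). -/
def toL : T → List T
  | .leaf => []
  | .node l r => l :: toL r

/-- A tree as a number. -/
def toN (t : T) : ℕ := (toL t).length

/-- A tree as a list of digits. -/
def toBits (t : T) : List Bool := (toL t).map (fun u => !(toL u).isEmpty)

/-- The `k`-th entry of a tree. -/
def nthT (k : ℕ) (t : T) : T := ((toL t).drop k).headD .leaf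

/-- The coordinate. -/
def ci (t : T) : ℕ := toN (nthT 0 t)
/-- The denominator. -/
def cD (t : T) : List Bool := toBits (nthT 1 t)
/-- The multiplier. -/
def cD' (t : T) : List Bool := toBits (nthT 2 t)
/-- The numerators. -/
def cX (t : T) (v : ℕ) : List Bool := toBits (nthT v (nthT 3 t))
/-- The rows. -/
def cRows (t : T) : List T := toL (nthT 4 t)
/-- Kind of a row. -/
def rKind (r : T) : ℕ := toN (nthT 0 r)
/-- Vertices of a row. -/
def rVs (r : T) : List ℕ := (toL (nthT 1 r)).map toN
/-- Positive coefficient of a row. -/
def rP (r : T) : List Bool := toBits (nthT 2 r)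
/-- Negative coefficient of a row. -/
def rM (r : T) : List Bool := toBits (nthT 3 r)
/-- The potentials. -/
def cd (t : T) (r v e : ℕ) : List Bool := toBits (nthT (v * 2 + e) (nthT r (nthT 5 t)))

/-- The entry `(i, j)` of the matrix `w`. -/
def wAdj (w : List Bool) (n i j : ℕ) : Bool := (w.drop (i * n + j)).headD false

/-- The entry `i` of a list of numbers. -/
def getN (l : List ℕ) (i : ℕ) : ℕ := (l.drop i).headD 0

/-- Check of a row. -/
def rowB (w : List Bool) (n : ℕ) (t r : T) : Bool :=
  (rVs r).all (fun v => decide (v < n)) &&
  ((decide (rKind r = 0) && (decide ((rVs r).length = 1) &&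
      leB (sumB ((rVs r).map (fun v => cX t v))) [])) ||
  ((decide (rKind r = 1) && (decide ((rVs r).length = 1) &&
      eqB2 (sumB ((rVs r).map (fun v => cX t v))) (cD t))) ||
  ((decide (rKind r = 2) && (decide ((rVs r).length = 2) &&
      (wAdj w n (getN (rVs r) 0) (getN (rVs r) 1) &&
      eqB2 (sumB ((rVs r).map (fun v => cX t v))) (cD t)))) ||
  (decide (rKind r = 3) && (oddB (rVs r).length &&
    ((List.range (rVs r).length).all (fun i => wAdj w n (getN (rVs r) i)
      (getN (rVs r) (if i + 1 < (rVs r).length then i + 1 else 0))) &&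
    eqB2 (sumB [sumB ((rVs r).map (fun v => cX t v)), sumB ((rVs r).map (fun v => cX t v)), cD t])
      (sumB ((rVs r).map (fun _ => cD t)))))))))

/-- The two sides of the combination at `v`. -/
def combP (t : T) (v : ℕ) : List Bool :=
  sumB ((cRows t).flatMap (fun r => ((rVs r).filter (fun u => decide (u = v))).map (fun _ => rP r)))

/-- The two sides of the combination at `v`. -/
def combM (t : T) (v : ℕ) : List Bool :=
  sumB ((if v = ci t then [cD' t] else []) ++
    (cRows t).flatMap (fun r => ((rVs r).filter (fun u => decide (u = v))).map (fun _ => rM r)))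

/-- The verifier for matrices. -/
def chk (w : List Bool) (n : ℕ) (t : T) : Bool :=
  decide (ci t < n) && (!(leB (cX t (ci t)) []) && (!(leB (cD t) (cX t (ci t))) &&
  (!(leB (cD' t) []) &&
  ((List.range n).all (fun v => leB (cX t v) (cD t)) &&
  ((List.range n).all (fun u => (List.range n).all (fun v =>
    !(wAdj w n u v) || leB (addB (cX t u) (cX t v)) (cD t))) &&
  ((cRows t).all (fun r => rowB w n t r) &&
  ((List.range n).all (fun v => eqB2 (combP t v) (combM t v)) &&
  ((List.range n).all (fun r => leB (cd t r r 0) [] && leB (cD t) (cd t r r 1)) &&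
  (List.range n).all (fun r => (List.range n).all (fun v => (List.range n).all (fun u =>
    !(wAdj w n v u) ||
    (leB (addB (cd t r u 1) (addB (cX t v) (cX t u))) (addB (cd t r v 0) (cD t)) &&
     leB (addB (cd t r u 0) (addB (cX t v) (cX t u))) (addB (cd t r v 1) (cD t))))))))))))))

/-- The side length of a matrix. -/
def rootOf (w : List Bool) : ℕ :=
  ((List.range (w.length + 1)).filter (fun k => decide (k * k = w.length))).headD 0

/-- `w` is the adjacency matrix of a graph. -/
def goodW (w : List Bool) : Bool :=
  decide (rootOf w * rootOf w = w.length) &&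
  ((List.range (rootOf w)).all (fun i => !(wAdj w (rootOf w) i i)) &&
  (List.range (rootOf w)).all (fun i => (List.range (rootOf w)).all (fun j =>
    !(wAdj w (rootOf w) i j) || wAdj w (rootOf w) j i)))

/-- The verifier. -/
def verif (p : List Bool × T) : Bool := !(goodW p.1) || chk p.1 (rootOf p.1) p.2

end Pool.Agent.H43.TP
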